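import Mathlib

/-!
# Charts of scheme-theoretic images
-/

set_option autoImplicit false

open AlgebraicGeometry CategoryTheory

universe u

namespace Pool.Agent.T6.H74.GC

lemma isDominant_spec {C K : Type u} [CommRing C] [CommRing K] (i : C →+* K)
    (hi : Function.Injective i) : IsDominant (Spec.map (CommRingCat.ofHom i)) := by
  apply isDominant_of_of_appTop_injective
  have h1 := Scheme.ΓSpecIso_naturality (CommRingCat.ofHom i)
  have h2 : (Spec.map (CommRingCat.ofHom i)).appTop =
      (Scheme.ΓSpecIso _).hom ≫ CommRingCat.ofHom i ≫ (Scheme.ΓSpecIso _).inv := by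
    rw [← Category.assoc, ← h1, Category.assoc, Iso.hom_inv_id, Category.comp_id]
  rw [h2]
  simp only [CommRingCat.hom_comp, RingHom.coe_comp, CommRingCat.hom_ofHom]
  exact ((ConcreteCategory.bijective_of_isIso (Scheme.ΓSpecIso _).inv).1.comp hi).comp
    (ConcreteCategory.bijective_of_isIso (Scheme.ΓSpecIso _).hom).1

section image

variable {S W Z : Scheme.{u}}

/-- A chart of a scheme-theoretic image. -/
lemma exists_chart [IsReduced Z] (γ : S ⟶ W) [QuasiCompact γ] (u : S ⟶ Z) [IsDominant u]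
    (h : Z ⟶ W) [IsImmersion h] [QuasiCompact h] (huh : u ≫ h = γ) :
    ∃ c : Z ⟶ γ.image, IsOpenImmersion c ∧ c ≫ γ.imageι = h ∧ u ≫ c = γ.toImage := by
  have hu : u.ker = ⊥ := (IsSchemeTheoreticallyDominant.of_isDominant u).ker_eq_bot
  have hk : γ.ker = h.ker := by
    rw [← huh, Scheme.Hom.ker_comp, hu, Scheme.IdealSheafData.map_bot]
  have hk' : γ.imageι.ker = h.imageι.ker := by
    rw [Scheme.IdealSheafData.ker_subschemeι, Scheme.IdealSheafData.ker_subschemeι, hk]
  have hiso : IsIso (IsClosedImmersion.lift γ.imageι h.imageι hk'.le) :=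
    IsClosedImmersion.isIso_lift _ _ hk'
  have hc : (h.toImage ≫ IsClosedImmersion.lift γ.imageι h.imageι hk'.le) ≫ γ.imageι = h := by
    rw [Category.assoc, IsClosedImmersion.lift_fac, Scheme.Hom.toImage_imageι]
  refine ⟨h.toImage ≫ IsClosedImmersion.lift γ.imageι h.imageι hk'.le, inferInstance, hc, ?_⟩
  rw [← cancel_mono γ.imageι, Category.assoc, hc, huh, Scheme.Hom.toImage_imageι]

/-- The range of a chart. -/
lemma mem_range_chart {V : Scheme.{u}} (γ : S ⟶ W) [QuasiCompact γ] (u : S ⟶ Z) (m : Z ⟶ V)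
    [IsClosedImmersion m] (i : V ⟶ W) [IsOpenImmersion i] (huh : u ≫ m ≫ i = γ)
    (c : Z ⟶ γ.image) (hc : c ≫ γ.imageι = m ≫ i) (y : γ.image)
    (hy : γ.imageι y ∈ Set.range i) : y ∈ Set.range c := by
  obtain ⟨v, hv⟩ := hy
  by_cases hvm : v ∈ Set.range m
  · obtain ⟨z, rfl⟩ := hvm
    refine ⟨z, ?_⟩
    apply γ.imageι.isEmbedding.injective
    rw [← Scheme.Hom.comp_apply, hc, Scheme.Hom.comp_apply, hv]
  · exfalso
    let O : Set γ.image := γ.imageι ⁻¹' (i '' (Set.range m)ᶜ)
    have hO : IsOpen O :=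
      (i.isOpenEmbedding.isOpenMap _ m.isClosedEmbedding.isClosed_range.isOpen_compl).preimage
        γ.imageι.continuous
    obtain ⟨s, hs⟩ := γ.toImage.denseRange.exists_mem_open hO ⟨y, v, hvm, hv⟩
    obtain ⟨v', hv', hs⟩ := hs
    apply hv'
    refine ⟨u s, ?_⟩
    apply i.isOpenEmbedding.injective
    rw [hs, ← Scheme.Hom.comp_apply, ← Scheme.Hom.comp_apply, ← Scheme.Hom.comp_apply,
      Scheme.Hom.toImage_imageι, huh]

/-- The morphism to the image is scheme-theoretically dominant. -/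
lemma toImage_dominant (γ : S ⟶ W) [QuasiCompact γ] :
    IsSchemeTheoreticallyDominant γ.toImage := by
  rw [isSchemeTheoreticallyDominant_iff]
  have hcov : ⨆ U : W.affineOpens, γ.imageι ⁻¹ᵁ (U : W.Opens) = ⊤ := by
    rw [← Scheme.Hom.preimage_iSup, iSup_affineOpens_eq_top, Scheme.Hom.preimage_top]
  refine Scheme.IdealSheafData.ext_of_iSup_eq_top
    (fun U : W.affineOpens => ⟨γ.imageι ⁻¹ᵁ (U : W.Opens), U.2.preimage γ.imageι⟩) hcov ?_
  intro U
  rw [Scheme.Hom.ker_apply, Scheme.IdealSheafData.ideal_bot, Pi.bot_apply,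
    ← RingHom.injective_iff_ker_eq_bot]
  exact γ.toImage_app_injective U

lemma isIntegral_image [IsReduced S] [IrreducibleSpace S] (γ : S ⟶ W) [QuasiCompact γ] :
    AlgebraicGeometry.IsIntegral γ.image := by
  have h1 := toImage_dominant γ
  have h2 : IsReduced γ.image := IsSchemeTheoreticallyDominant.isReduced γ.toImage
  have h3 : IrreducibleSpace γ.image := by
    have h4 : IsIrreducible (Set.range γ.toImage) := by
      rw [← Set.image_univ]
      exact (IrreducibleSpace.isIrreducible_univ S).image _ γ.toImage.continuous.continuousOn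
    have h5 := h4.closure
    rw [γ.toImage.denseRange.closure_range] at h5
    exact { toPreirreducibleSpace := ⟨h5.2⟩, toNonempty := ⟨h5.1.some⟩ }
  exact isIntegral_of_irreducibleSpace_of_isReduced _

end image

end Pool.Agent.T6.H74.GC
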