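import Pool.Agent.T6.H74.GC.Glob

/-!
# Function fields
-/

set_option autoImplicit false

open AlgebraicGeometry CategoryTheory Pool.Agent.W558

universe u

namespace Pool.Agent.T6.H74.GC

variable {k K : Type u} [Field k] [Field K] [Algebra k K] {X : Scheme.{u}}
  [AlgebraicGeometry.IsIntegral X]

/-- The isomorphism `φ` of the function field of the `k`-scheme `X` and of the extension `K` of
`k` is the identity on `k`. -/
def IsLinear (f : X ⟶ Spec (CommRingCat.of k)) (φ : X.functionField ≃+* K) : Prop :=
  ∀ a : k, φ (X.presheaf.germ ⊤ (genericPoint X) trivial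
    (f.appTop ((Scheme.ΓSpecIso (CommRingCat.of k)).inv a))) = algebraMap k K a

/-- The functions on the open subset `U` of `X`, as elements of the field `K`, which is identified
with the function field of `X`. -/
def functionsOn (φ : X.functionField ≃+* K) (U : X.Opens) : Set K :=
  {y | ∃ (h : genericPoint X ∈ U) (g : Γ(X, U)), φ (X.presheaf.germ U (genericPoint X) h g) = y}

/-- The generic point. -/
noncomputable def gpt (φ : X.functionField ≃+* K) : Spec (CommRingCat.of K) ⟶ X :=
  Spec.map (CommRingCat.ofHom (φ : X.functionField →+* K)) ≫ X.fromSpecStalk (genericPoint X)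

lemma gpt_comp (f : X ⟶ Spec (CommRingCat.of k)) (φ : X.functionField ≃+* K)
    (hφ : IsLinear f φ) :
    gpt φ ≫ f = Spec.map (CommRingCat.ofHom (algebraMap k K)) := by
  have h1 : ((gpt φ ≫ f) : Spec (CommRingCat.of K) ⟶ Spec (CommRingCat.of k)) =
      Spec.map (Spec.preimage (gpt φ ≫ f)) := (Spec.map_preimage _).symm
  have h2 : ((Scheme.ΓSpecIso (CommRingCat.of k)).inv ≫ (gpt φ ≫ f).appTop ≫
      (Scheme.ΓSpecIso (CommRingCat.of K)).hom) = Spec.preimage (gpt φ ≫ f) := by
    have h3 := Scheme.ΓSpecIso_inv_naturality (Spec.preimage (gpt φ ≫ f))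
    rw [Spec.map_preimage] at h3
    rw [← Category.assoc, ← h3, Category.assoc, Iso.inv_hom_id, Category.comp_id]
  have h4 : (gpt φ ≫ f).appTop ≫ (Scheme.ΓSpecIso (CommRingCat.of K)).hom =
      f.appTop ≫ X.presheaf.germ ⊤ (genericPoint X) trivial ≫
        CommRingCat.ofHom (φ : X.functionField →+* K) := by
    have h5 := Scheme.ΓSpecIso_inv_naturality
      (CommRingCat.ofHom (φ : X.functionField →+* K))
    have h6 : (gpt φ).appTop = X.presheaf.germ ⊤ (genericPoint X) trivial ≫
        CommRingCat.ofHom (φ : X.functionField →+* K) ≫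
        (Scheme.ΓSpecIso (CommRingCat.of K)).inv := by
      rw [gpt, Scheme.Hom.comp_appTop, Scheme.fromSpecStalk_appTop, Category.assoc]
      congr 1
      exact h5.symm
    rw [Scheme.Hom.comp_appTop, h6]
    simp only [Category.assoc, Iso.inv_hom_id, Category.comp_id]
  have h5 : Spec.preimage (gpt φ ≫ f) = CommRingCat.ofHom (algebraMap k K) := by
    rw [← h2, h4]
    ext a
    exact hφ a
  rw [h1, h5]

/-- The affine open subsets. -/
lemma isAff_of_isAffineOpen (φ : X.functionField ≃+* K) {U : X.Opens} (hU : IsAffineOpen U)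
    {x : X} (hx : x ∈ U) :
    ∃ (β : Γ(X, U) →+* K), IsAff (gpt φ) β hU.fromSpec ∧ (β.range : Set K) = functionsOn φ U := by
  have hη : genericPoint X ∈ U :=
    ((genericPoint_spec X).mem_open_set_iff U.isOpen).mpr ⟨x, trivial, hx⟩
  refine ⟨(φ : X.functionField →+* K).comp (X.presheaf.germ U (genericPoint X) hη).hom, ?_, ?_⟩
  · have : Nonempty U := ⟨⟨x, hx⟩⟩
    have hfr := functionField_isFractionRing_of_isAffineOpen X U hU
    have hinj : Function.Injective (X.presheaf.germ U (genericPoint X) hη).hom :=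
      germ_injective_of_isIntegral X _ hη
    refine ⟨inferInstance, ?_, ?_, ?_⟩
    · rw [gpt, ← hU.fromSpecStalk_eq_fromSpecStalk hη, IsAffineOpen.fromSpecStalk,
        ← Category.assoc, ← Spec.map_comp]
      rfl
    · exact φ.injective.comp hinj
    · intro y
      obtain ⟨u, v, hv, huv⟩ := IsFractionRing.div_surjective (A := Γ(X, U)) (φ.symm y)
      refine ⟨u, v, ?_, ?_⟩
      · intro h0
        have h1 : v = 0 := hinj (φ.injective (by rw [map_zero, map_zero]; exact h0))
        exact nonZeroDivisors.ne_zero hv h1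
      · have h1 := congrArg φ huv
        rw [RingEquiv.apply_symm_apply, map_div₀] at h1
        exact h1.symm
  · ext y
    constructor
    · rintro ⟨g, rfl⟩
      exact ⟨hη, g, rfl⟩
    · rintro ⟨h, g, rfl⟩
      exact ⟨g, rfl⟩

end Pool.Agent.T6.H74.GC
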