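import Pool.Agent.T6.H74.GC.Shrink
import Pool.Agent.W462.WD.Res
import Pool.Agent.W578.WD.Norm
import Pool.Agent.W349.WD.Ovp
import Pool.Agent.W558.Var

/-!
# Resolution of varieties which are covered by affine varieties defined by monomials
-/

set_option autoImplicit false

open AlgebraicGeometry CategoryTheory Pool.Agent.W558

universe u

namespace Pool.Agent.T6.H74.GC

section coord

variable {k K : Type u} [Field k] [Field K] [Algebra k K]

/-- Homogeneous coordinates of a model. -/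
lemma exists_coordinates {T I : Type} [Finite T] {R0 R : Subalgebra k K} (M : LM R0 R T I) :
    ∃ (n : ℕ) (z : Fin n → K) (e : T → Fin n), (∀ i, z i ≠ 0) ∧
      ∀ t, Algebra.adjoin k (Set.range fun i => z i / z (e t)) = M.A t := by
  classical
  have : Fintype T := Fintype.ofFinite T
  have hfg : ∀ t, ∃ G : Finset K, Algebra.adjoin k (G : Set K) = M.A t ∧ ∀ x ∈ G, x ≠ 0 := by
    intro t
    have h1 := M.sm t
    have h2 : Algebra.FiniteType k (M.A t) := inferInstance
    obtain ⟨G, hG⟩ := (Subalgebra.fg_iff_finiteType _).2 h2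
    refine ⟨G.erase 0, ?_, fun x hx => (Finset.mem_erase.1 hx).1⟩
    rw [← hG]
    apply le_antisymm
    · exact Algebra.adjoin_mono (Finset.coe_subset.2 (Finset.erase_subset _ _))
    · rw [Algebra.adjoin_le_iff]
      intro x hx
      by_cases hx0 : x = 0
      · rw [hx0]
        exact Subalgebra.zero_mem _
      · exact Algebra.subset_adjoin (Finset.mem_coe.2 (Finset.mem_erase.2
          ⟨hx0, Finset.mem_coe.1 hx⟩))
  choose G hG hG0 using hfg
  have hGm : ∀ t, ∀ x ∈ G t, x ∈ M.A t := by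
    intro t x hx
    rw [← hG t]; exact Algebra.subset_adjoin hx
  have h1 : ∀ p : (Σ t, {x // x ∈ G t}), ∃ n : ℕ, ∀ t, (M.H p.1 / M.H t) ^ n * p.2.1 ∈ M.A t := by
    rintro ⟨t, x, hx⟩
    choose m hm' using fun t' => M.gl t' t _ (hGm t x hx)
    refine ⟨Finset.univ.sup m, fun t' => ?_⟩
    exact M.gl_mono (Finset.le_sup (Finset.mem_univ t')) (hm' t')
  choose N hN using h1
  let L : ℕ := Finset.univ.sup N
  have hNL : ∀ p, N p ≤ L := fun p => Finset.le_sup (Finset.mem_univ p)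
  have hL : ∀ (p : (Σ t, {x // x ∈ G t})) t, (M.H p.1 / M.H t) ^ L * p.2.1 ∈ M.A t :=
    fun p t => M.gl_mono (hNL p) (hN p t)
  let J := T ⊕ (Σ t, {x // x ∈ G t})
  let ε := Fintype.equivFin J
  let z0 : J → K := Sum.elim (fun t => M.H t ^ L) fun p => M.H p.1 ^ L * p.2.1
  have hz0 : ∀ j, z0 j ≠ 0 := by
    rintro (t | ⟨t, x, hx⟩)
    · exact pow_ne_zero _ (M.H0 t)
    · exact mul_ne_zero (pow_ne_zero _ (M.H0 t)) (hG0 t x hx)
  refine ⟨Fintype.card J, fun i => z0 (ε.symm i), fun t => ε (Sum.inl t),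
    fun i => hz0 _, fun t => ?_⟩
  have e0 : z0 (ε.symm (ε (Sum.inl t))) = M.H t ^ L := by
    rw [Equiv.symm_apply_apply]
    rfl
  have hHt := pow_ne_zero L (M.H0 t)
  apply le_antisymm
  · rw [Algebra.adjoin_le_iff]
    rintro _ ⟨i, rfl⟩
    change z0 (ε.symm i) / z0 (ε.symm (ε (Sum.inl t))) ∈ M.A t
    rw [e0]
    rcases ε.symm i with t' | p
    · change M.H t' ^ L / M.H t ^ L ∈ M.A t
      rw [← div_pow]
      exact (M.A t).pow_mem (M.rt t t') L
    · have h2 : M.H p.1 ^ L * p.2.1 / M.H t ^ L = (M.H p.1 / M.H t) ^ L * p.2.1 := by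
        rw [div_pow]
        ring
      change M.H p.1 ^ L * p.2.1 / M.H t ^ L ∈ M.A t
      rw [h2]
      exact hL p t
  · rw [← hG t, Algebra.adjoin_le_iff]
    intro x hx
    refine Algebra.subset_adjoin ⟨ε (Sum.inr ⟨t, x, Finset.mem_coe.1 hx⟩), ?_⟩
    change z0 (ε.symm _) / z0 (ε.symm (ε (Sum.inl t))) = x
    rw [e0, Equiv.symm_apply_apply]
    change M.H t ^ L * x / M.H t ^ L = x
    field_simp

end coord

/-- Resolution of varieties which are covered by affine varieties with coordinate rings integral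
over subalgebras generated by functions which are locally monomials on projective models. -/
theorem global_of_models {k K : Type u} [Field k] [Field K] [Algebra k K] (P : K → Prop)
    (hmod : ∀ (G : Type) (_ : Finite G) (y : G → K), (∀ b, y b ≠ 0 ∧ P (y b)) →
      ∃ (T I : Type) (_ : Finite T) (_ : Fintype I) (M : LM (⊥ : Subalgebra k K) ⊤ T I)
        (Γ : G → I → ℤ), Fn M y Γ ∧ Frc M)
    {X : Scheme.{u}} (f : X ⟶ Spec (CommRingCat.of k)) [AlgebraicGeometry.IsIntegral X]
    [IsSeparated f] [LocallyOfFiniteType f] [QuasiCompact f]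
    (b : Spec (CommRingCat.of K) ⟶ X)
    (hb : b ≫ f = Spec.map (CommRingCat.ofHom (algebraMap k K)))
    (hX : ∀ x : X, ∃ (B : Type u) (_ : CommRing B) (β : B →+* K)
      (a : Spec (CommRingCat.of B) ⟶ X), IsAff b β a ∧ x ∈ Set.range a ∧
      ∃ S : Finset K, (∀ y ∈ S, y ≠ 0 ∧ P y ∧ y ∈ β.range) ∧
        ∀ u : B, _root_.IsIntegral (Algebra.adjoin k (S : Set K)) (β u)) :
    IsResolvableVariety f := by
  classical
  refine ⟨⟨inferInstance, inferInstance, inferInstance, inferInstance⟩, ?_⟩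
  -- finitely many charts
  have hcomp : CompactSpace X := by
    have h1 : QuasiCompact f := inferInstance
    exact HasAffineProperty.iff_of_isAffine (P := @QuasiCompact) |>.1 h1
  choose B iB β a ha hxa S hS hI using hX
  have hopen : ∀ x, IsOpen (Set.range (a x)) := fun x =>
    (ha x).oi.isOpen_range
  obtain ⟨F, hF⟩ := isCompact_univ.elim_finite_subcover (fun x => Set.range (a x)) hopen
    (fun x _ => Set.mem_iUnion.2 ⟨x, hxa x⟩)
  let S0 : Finset K := F.biUnion S
  let ε := S0.equivFin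
  let y : Fin S0.card → K := fun i => (ε.symm i).1
  have hyS : ∀ i, y i ∈ S0 := fun i => (ε.symm i).2
  have hy : ∀ i, y i ≠ 0 ∧ P (y i) := by
    intro i
    obtain ⟨x, -, hx⟩ := Finset.mem_biUnion.1 (hyS i)
    exact ⟨(hS x _ hx).1, (hS x _ hx).2.1⟩
  obtain ⟨T, I, iT, iI, M, Γ, hFn, hFrc⟩ := hmod (Fin S0.card) inferInstance y hy
  -- principalize
  let y' : Option (Fin S0.card) → K := fun o => o.elim 1 y
  let Γ0 : Option (Fin S0.card) → I → ℤ := fun o => o.elim 0 Γ
  have hF0 : Fn M y' Γ0 := by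
    rintro (_ | i) t
    · refine ⟨1, one_ne_zero, (M.A t).one_mem, by rw [inv_one]; exact (M.A t).one_mem, ?_⟩
      simp [y', Γ0]
    · exact hFn i t
  obtain ⟨T1, I1, iT1, iI1, M1, π, Θ, hE, hC⟩ :=
    Pool.Agent.W349.WD.main k K ⊥ ⊤ T I (Option (Fin S0.card)) M Γ0
  let Γ1 : Option (Fin S0.card) → I1 → ℤ := fun a i' => ∑ i, Θ i' i * Γ0 a i
  have hF1 : Fn M1 y' Γ1 := Pool.Agent.W462.WD.Res.fn_ov hE hF0
  have hcmp : ∀ t i, y i ∈ M1.A t ∨ (y i)⁻¹ ∈ M1.A t := by
    intro t i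
    rcases hC none (some i) t with h1 | h1
    · left
      have h2 := div_mem_of_le M1 t y' Γ1 hF1 (a := none) (b := some i) h1
      have h3 : y' (some i) / y' none = y i := by simp [y']
      rwa [h3] at h2
    · right
      have h2 := div_mem_of_le M1 t y' Γ1 hF1 (a := some i) (b := none) h1
      have h3 : y' none / y' (some i) = (y i)⁻¹ := by simp [y']
      rwa [h3] at h2
  have hcmp' : ∀ t, ∀ w ∈ S0, w ∈ M1.A t ∨ w⁻¹ ∈ M1.A t := by
    intro t w hw
    have h1 := hcmp t (ε ⟨w, hw⟩)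
    have h2 : y (ε ⟨w, hw⟩) = w := by
      change (ε.symm (ε ⟨w, hw⟩)).1 = w
      rw [Equiv.symm_apply_apply]
    rwa [h2] at h1
  obtain ⟨n, z, e, hz, hze⟩ := exists_coordinates M1
  refine resolution_of_coordinates z f b hb hz (Set.range e) ?_ ?_
  · intro V hV
    obtain ⟨t, ht⟩ := M1.cv V (by
      intro w hw
      obtain ⟨c, rfl⟩ := Algebra.mem_bot.1 hw
      exact hV c)
    refine ⟨e t, ⟨t, rfl⟩, fun i => ht _ ?_⟩
    rw [← hze t]
    exact Algebra.subset_adjoin ⟨i, rfl⟩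
  · intro x
    obtain ⟨x', hx'F, hxx'⟩ := Set.mem_iUnion₂.1 (hF (Set.mem_univ x))
    refine ⟨B x', iB x', β x', a x', ha x', hxx', ?_⟩
    rintro _ ⟨t, rfl⟩
    rw [hze t]
    have hS' : S x' ⊆ S0 := Finset.subset_biUnion_of_mem S hx'F
    -- the functions which are inverted
    let s : Finset K := (S x').filter fun w => w ∉ M1.A t
    have hs : ∀ w, w ∈ s ↔ w ∈ S x' ∧ w ∉ M1.A t := fun w => Finset.mem_filter
    let r : K := ∏ w ∈ s, w⁻¹
    have hrmem : r ∈ M1.A t := by
      refine (M1.A t).prod_mem fun w hw => ?_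
      exact (hcmp' t w (hS' ((hs w).1 hw).1)).resolve_left ((hs w).1 hw).2
    have hne : ∀ w ∈ S x', w ≠ 0 := fun w hw => (hS x' w hw).1
    have hr0 : r ≠ 0 :=
      Finset.prod_ne_zero_iff.2 fun w hw => inv_ne_zero (hne w ((hs w).1 hw).1)
    have hrR : r⁻¹ ∈ (β x').range := by
      have h1 : r⁻¹ = ∏ w ∈ s, w := by
        simp only [r]
        rw [← Finset.prod_inv_distrib]
        exact Finset.prod_congr rfl fun w _ => inv_inv _
      rw [h1]
      exact Subring.prod_mem _ fun w hw => (hS x' w ((hs w).1 hw).1).2.2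
    have := M1.sm t
    have hsm : Algebra.Smooth k (adj (M1.A t) r⁻¹) := smooth_adj_inv hrmem hr0
    have hwC : ∀ w ∈ S x', w ∈ adj (M1.A t) r⁻¹ := by
      intro w hw
      by_cases h : w ∈ M1.A t
      · exact le_adj _ _ h
      · have h1 : w ∈ s := (hs w).2 ⟨hw, h⟩
        have h2 : r = w⁻¹ * ∏ w' ∈ s.erase w, w'⁻¹ := (Finset.mul_prod_erase _ _ h1).symm
        have h3 : ∏ w' ∈ s.erase w, w'⁻¹ ∈ M1.A t := by
          refine (M1.A t).prod_mem fun w' hw' => ?_
          have h4 := (hs w').1 (Finset.mem_of_mem_erase hw')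
          exact (hcmp' t w' (hS' h4.1)).resolve_left h4.2
        have h4 : w = (∏ w' ∈ s.erase w, w'⁻¹) * r⁻¹ := by
          have h5 : ∏ w' ∈ s.erase w, w'⁻¹ ≠ 0 :=
            Finset.prod_ne_zero_iff.2 fun w' hw' =>
              inv_ne_zero (hne w' ((hs w').1 (Finset.mem_of_mem_erase hw')).1)
          rw [h2, mul_inv, inv_inv, mul_left_comm, mul_inv_cancel₀ h5, mul_one]
        rw [h4]
        exact Subalgebra.mul_mem _ (le_adj _ _ h3) (self_mem_adj _ _)
    have hle : Algebra.adjoin k (S x' : Set K) ≤ adj (M1.A t) r⁻¹ :=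
      Algebra.adjoin_le fun w hw => hwC w (Finset.mem_coe.1 hw)
    have hIC : IsIntegrallyClosed (adj (M1.A t) r⁻¹) := Pool.Agent.W578.WD.Norm.main k _
    have hfr : IsFractionRing (adj (M1.A t) r⁻¹) K := by
      refine IsFractionRing.of_field _ K fun w => ?_
      obtain ⟨a, ha, b, hb, hb0, hw⟩ := hFrc (π t) w
      exact ⟨⟨a, le_adj _ _ (hE.le t ha)⟩, ⟨b, le_adj _ _ (hE.le t hb)⟩, by
        rw [div_eq_mul_inv]; exact hw⟩
    have hBC : (β x').range ≤ (adj (M1.A t) r⁻¹).toSubring := by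
      rintro _ ⟨u, rfl⟩
      have h2 : _root_.IsIntegral (adj (M1.A t) r⁻¹) (β x' u) := by
        have h3 := (hI x' u).map_of_comp_eq (Subalgebra.inclusion hle).toRingHom (RingHom.id K) rfl
        exact h3
      obtain ⟨v, hv⟩ := IsIntegrallyClosed.isIntegral_iff.1 h2
      rw [← hv]
      exact v.2
    refine ⟨adj (M1.A t) r⁻¹, hsm, le_antisymm ?_ ?_⟩
    · intro w hw
      refine adj_induction (M1.A t) r⁻¹
        (p := fun w => w ∈ (M1.A t).toSubring ⊔ (β x').range) ?_ ?_ ?_ w hw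
      · intro w hw
        exact (le_sup_left : (M1.A t).toSubring ≤ _) hw
      · intro w w' hw hw'
        exact Subring.add_mem _ hw hw'
      · intro w hw
        exact Subring.mul_mem _ hw ((le_sup_right : (β x').range ≤ _) hrR)
    · rw [sup_le_iff]
      exact ⟨fun w hw => le_adj _ _ hw, hBC⟩

end Pool.Agent.T6.H74.GC
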