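import Pool.Agent.W558.T3.PLF
import Pool.Agent.T6.H74.GC.Glob

/-!
# Projective models for products of linear forms
-/

set_option autoImplicit false
set_option linter.unusedVariables false
set_option linter.unusedSimpArgs false
set_option linter.unusedSectionVars false

universe u

open AlgebraicGeometry CategoryTheory Pool.Agent.W558

namespace Pool.Agent.T6.H74.GC

lemma frc_of_gen {k K : Type u} [Field k] [Field K] [Algebra k K] {R0 R : Subalgebra k K}
    {T I G : Type} [Fintype I] (M : LM R0 R T I) (g : G → K) (Γ : G → I → ℤ) (hF : Fn M g Γ)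
    (hgen : IntermediateField.adjoin k (Set.range g) = ⊤) : Frc M := by
  intro t x
  have h1 : IntermediateField.adjoin k (Set.range g) ≤
      IntermediateField.adjoin k (M.A t : Set K) := by
    rw [IntermediateField.adjoin_le_iff]
    rintro _ ⟨b, rfl⟩
    obtain ⟨w, -, hw, -, h2⟩ := hF b t
    rw [h2]
    refine mul_mem (IntermediateField.subset_adjoin k _ hw) (prod_mem fun i _ => ?_)
    exact zpow_mem (IntermediateField.subset_adjoin k _ (M.xA t i)) _
  have h2 : x ∈ IntermediateField.adjoin k (M.A t : Set K) := by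
    apply h1
    rw [hgen]
    trivial
  rw [IntermediateField.mem_adjoin_iff_div] at h2
  obtain ⟨r, hr, s, hs, rfl⟩ := h2
  rw [Algebra.adjoin_eq] at hr hs
  by_cases hs0 : s = 0
  · exact ⟨0, Subalgebra.zero_mem _, 1, Subalgebra.one_mem _, one_ne_zero, by
      rw [hs0, div_zero, zero_mul]⟩
  · exact ⟨r, hr, s, hs, hs0, div_eq_mul_inv r s⟩

/-- The functions which are products of linear forms, of functions on the base and of sums. -/
def plfSet {E K : Type u} [Field E] [Field K] [Algebra E K] {n r : ℕ}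
    (V : Fin n → Submodule E K) (f : Fin r → K) : Set Kˣ :=
  {x : Kˣ | (∃ b, algebraMap E K b = x) ∨ (∃ s, (x : K) ∈ V s) ∨ ∃ l, f l = x}

/-- Models. -/
theorem plf_models (p : ℕ) [Fact p.Prime] (k E K : Type u) [Field k] [PerfectField k] [CharP k p]
    [Field E] [Algebra k E] (hE : (Algebra.trdeg k E = 2 ∧ HasModel k E) ∨ HasLogModels k E)
    [Field K] [Algebra E K] [Algebra k K] [IsScalarTower k E K]
    (n : ℕ) (V : Fin n → Submodule E K) [∀ s, FiniteDimensional E (V s)]
    (hgen : IntermediateField.adjoin E (⋃ s, (V s : Set K)) = ⊤)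
    (r : ℕ) (ι : Fin r → Type) [∀ j, Fintype (ι j)] (i₀ : ∀ j, ι j)
    (c : ∀ j, ι j → E) (hc : ∀ j i, c j i ≠ 0) (d : ∀ j, ι j → Fin n → ℕ)
    (g : ∀ j i s, Fin (d j i s) → K) (hgV : ∀ j i s t, g j i s t ∈ V s)
    (hg0 : ∀ j i s t, g j i s t ≠ 0) (e : ∀ j, ι j → Fin r → ℕ) (f : Fin r → K)
    (he : ∀ j i l, e j i l ≠ 0 → l < j ∧ f l ≠ 0)
    (hf : ∀ j, f j = ∑ i, algebraMap E K (c j i) * ((∏ s, ∏ t, g j i s t) * ∏ l, f l ^ e j i l))
    (deg : Fin r → Fin n → ZMod p)
    (hdeg : ∀ j, deg j = Pool.Agent.W418.LCI.dg deg (d j (i₀ j)) (e j (i₀ j)))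
    (hind : LinearIndependent (ZMod p) fun q : (j : Fin r) × {i : ι j // i ≠ i₀ j} =>
      Pool.Agent.W418.LCI.dg deg (d q.1 q.2) (e q.1 q.2) - deg q.1)
    (htr : Algebra.trdeg E K + (Nat.card {j // f j = 0} : Cardinal.{u}) =
      ((∑ s, Module.finrank E (V s) : ℕ) : Cardinal.{u}))
    (hfg : ∃ S0 : Finset K, IntermediateField.adjoin k (S0 : Set K) = ⊤)
    (G' : Type) (_ : Finite G') (y : G' → K)
    (hy : ∀ b, y b ≠ 0 ∧ ∃ x ∈ Subgroup.closure (plfSet V f), (x : K) = y b) :
    ∃ (T I : Type) (_ : Finite T) (_ : Fintype I) (M : LM (⊥ : Subalgebra k K) ⊤ T I)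
        (Γ : G' → I → ℤ), Fn M y Γ ∧ Frc M := by
  classical
  have hE' : Pool.Agent.W418.LCI.HasLM k E := by
    rcases hE with ⟨h2, hE⟩ | hE
    · exact Pool.Agent.W418.LCI.hasLM_of_surface k E h2 hE
    · exact Pool.Agent.W418.LCI.hasLM_of_models k E hE
  have : Fintype G' := Fintype.ofFinite G'
  choose hy0 yu hyu hyv using hy
  let S : Finset Kˣ := Finset.univ.image yu
  have hS : ∀ x ∈ S, x ∈ Subgroup.closure (plfSet V f) := by
    intro x hx
    obtain ⟨b, -, rfl⟩ := Finset.mem_image.1 hx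
    exact hyu b
  obtain ⟨T0, hT0, hST0⟩ := exists_finset_closure' _ S hS
  -- generators of the field
  obtain ⟨S0, hS0⟩ := hfg
  have hgen' : IntermediateField.adjoin k (Units.val '' plfSet V f) = ⊤ := by
    rw [eq_top_iff]
    have h1 : ∀ a : E, algebraMap E K a ∈
        IntermediateField.adjoin k (Units.val '' plfSet V f) := by
      intro a
      by_cases ha : a = 0
      · rw [ha, map_zero]
        exact zero_mem _
      · have ha' : algebraMap E K a ≠ 0 := (map_ne_zero _).2 ha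
        exact IntermediateField.subset_adjoin k _
          ⟨Units.mk0 _ ha', Or.inl ⟨a, rfl⟩, rfl⟩
    let L : IntermediateField E K :=
      { (IntermediateField.adjoin k (Units.val '' plfSet V f)).toSubfield with
        algebraMap_mem' := h1 }
    have h2 : IntermediateField.adjoin E (⋃ s, (V s : Set K)) ≤ L := by
      rw [IntermediateField.adjoin_le_iff]
      intro x hx
      obtain ⟨s, hs⟩ := Set.mem_iUnion.1 hx
      by_cases hx0 : x = 0
      · rw [hx0]
        exact L.zero_mem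
      · exact IntermediateField.subset_adjoin k _
          ⟨Units.mk0 _ hx0, Or.inr (Or.inl ⟨s, hs⟩), rfl⟩
    intro x _
    have h3 : x ∈ IntermediateField.adjoin E (⋃ s, (V s : Set K)) := by
      rw [hgen]
      trivial
    exact h2 h3
  have hfin : ∀ x : K, ∃ T : Finset Kˣ, (T : Set Kˣ) ⊆ plfSet V f ∧
      x ∈ IntermediateField.adjoin k (Units.val '' (T : Set Kˣ)) := by
    intro x
    have h6 : x ∈ IntermediateField.adjoin k (Units.val '' plfSet V f) := by
      rw [hgen']
      trivial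
    obtain ⟨T1, hT1, hx⟩ := IntermediateField.exists_finset_of_mem_adjoin h6
    have h7 : ∀ w : K, ∃ u : Kˣ, w ∈ T1 → u ∈ plfSet V f ∧ (u : K) = w := by
      intro w
      by_cases hw : w ∈ T1
      · obtain ⟨u, hu, huw⟩ := hT1 (Finset.mem_coe.2 hw)
        exact ⟨u, fun _ => ⟨hu, huw⟩⟩
      · exact ⟨1, fun h => absurd h hw⟩
    choose uu huu using h7
    refine ⟨T1.image uu, ?_, ?_⟩
    · intro u hu
      obtain ⟨w, hw, rfl⟩ := Finset.mem_image.1 (Finset.mem_coe.1 hu)
      exact (huu w hw).1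
    · refine IntermediateField.adjoin.mono k _ _ ?_ hx
      intro w hw
      exact ⟨uu w, Finset.mem_coe.2 (Finset.mem_image_of_mem _ (Finset.mem_coe.1 hw)),
        (huu w (Finset.mem_coe.1 hw)).2⟩
  choose Tb hTb1 hTb2 using hfin
  let T : Finset Kˣ := T0 ∪ S0.biUnion Tb
  have hT : (T : Set Kˣ) ⊆ plfSet V f := by
    intro u hu
    rcases Finset.mem_union.1 (Finset.mem_coe.1 hu) with h | h
    · exact hT0 (Finset.mem_coe.2 h)
    · obtain ⟨x, -, hx⟩ := Finset.mem_biUnion.1 h
      exact hTb1 x (Finset.mem_coe.2 hx)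
  have hTgen : IntermediateField.adjoin k (Units.val '' (T : Set Kˣ)) = ⊤ := by
    rw [eq_top_iff, ← hS0, IntermediateField.adjoin_le_iff]
    intro x hx
    refine IntermediateField.adjoin.mono k _ _ (Set.image_mono ?_) (hTb2 x)
    intro u hu
    exact Finset.mem_coe.2 (Finset.mem_union_right _ (Finset.mem_biUnion.2
      ⟨x, Finset.mem_coe.1 hx, Finset.mem_coe.1 hu⟩))
  have hST : ∀ x ∈ S, x ∈ Subgroup.closure (T : Set Kˣ) := fun x hx =>
    Subgroup.closure_mono (Finset.coe_subset.2 Finset.subset_union_left) (hST0 x hx)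
  -- index sets in `Type`
  let N := T.card
  let tt : Fin N → Kˣ := fun i => (T.equivFin.symm i).1
  have htt : ∀ i, tt i ∈ T := fun i => (T.equivFin.symm i).2
  have htt' : ∀ x ∈ T, ∃ i, tt i = x := fun x hx =>
    ⟨T.equivFin ⟨x, hx⟩, by
      change (T.equivFin.symm (T.equivFin ⟨x, hx⟩)).1 = x
      rw [Equiv.symm_apply_apply]⟩
  let H' : Type := {i : Fin N // ∃ b, algebraMap E K b = tt i}
  let h' : H' → E := fun i => i.2.choose
  have hh' : ∀ i, algebraMap E K (h' i) = tt i.1 := fun i => i.2.choose_spec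
  have hh0 : ∀ i, h' i ≠ 0 := by
    intro i h
    have h1 := hh' i
    rw [h, map_zero] at h1
    exact (tt i.1).ne_zero h1.symm
  let Λ' : Type := {i : Fin N // ∃ s, (tt i : K) ∈ V s}
  let u : Λ' → K := fun i => tt i.1
  let ub : Λ' → Fin n := fun i => i.2.choose
  have hu : ∀ q, u q ∈ V (ub q) := fun q => q.2.choose_spec
  have hu0 : ∀ q, u q ≠ 0 := fun q => (tt q.1).ne_zero
  obtain ⟨Q, Ds, hst, hQ⟩ := Pool.Agent.W418.LCI.exists_sta' p k E K hE' n V hgen r ι i₀ c hc d g
    hgV hg0 e f he hf deg hdeg hind htr H' h' hh0 Λ' u ub hu hu0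
  let G : Type := H' ⊕ (Λ' ⊕ Fin r)
  let gg : G → K := Sum.elim (fun b => algebraMap E K (h' b)) (Sum.elim u
        (fun l => open Classical in if f l = 0 then 1 else f l))
  have hgg : ∀ a, gg a ≠ 0 := by
    rintro (i | i | l)
    · exact (map_ne_zero _).2 (hh0 i)
    · exact hu0 i
    · change (if f l = 0 then 1 else f l) ≠ 0
      by_cases h : f l = 0
      · rw [if_pos h]; exact one_ne_zero
      · rw [if_neg h]; exact h
  let gu : G → Kˣ := fun a => Units.mk0 (gg a) (hgg a)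
  have hTg : (T : Set Kˣ) ⊆ Set.range gu := by
    intro x hx
    obtain ⟨i, rfl⟩ := htt' x hx
    rcases hT hx with h | h | ⟨l, hl⟩
    · refine ⟨Sum.inl ⟨i, h⟩, Units.ext ?_⟩
      exact hh' ⟨i, h⟩
    · refine ⟨Sum.inr (Sum.inl ⟨i, h⟩), Units.ext rfl⟩
    · refine ⟨Sum.inr (Sum.inr l), Units.ext ?_⟩
      change (if f l = 0 then 1 else f l) = _
      have hl0 : f l ≠ 0 := by rw [hl]; exact (tt i).ne_zero
      rw [if_neg hl0, hl]
  -- the exponents
  have hSe : ∀ b : G', ∃ a : G → ℤ, yu b = ∏ i, gu i ^ a i := by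
    intro b
    have h1 : yu b ∈ Subgroup.closure (Set.range gu) :=
      Subgroup.closure_mono hTg (hST _ (Finset.mem_image_of_mem yu (Finset.mem_univ b)))
    obtain ⟨a, ha⟩ := Subgroup.mem_closure_range_iff_of_fintype.1 h1
    exact ⟨a, ha⟩
  choose ex hex using hSe
  obtain ⟨-, -, -, T', I', i1, i2, i3, M, Γ, B, b, hFn, -, -⟩ := hst
  have hmono := fn_mono hFn ex
  have hyy : (fun b => ∏ a, gg a ^ ex b a) = y := by
    funext b
    rw [← hyv b, hex b, Units.coe_prod]
    refine Finset.prod_congr rfl fun i _ => ?_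
    rw [Units.val_zpow_eq_zpow_val]
    rfl
  refine ⟨T', I', i1, i2, M, fun i l => ∑ b, ex i b * Γ b l, ?_, frc_of_gen M gg Γ hFn ?_⟩
  · rw [← hyy]
    exact hmono
  · rw [eq_top_iff, ← hTgen]
    apply IntermediateField.adjoin.mono
    rintro _ ⟨x, hx, rfl⟩
    obtain ⟨a, rfl⟩ := hTg hx
    exact ⟨a, rfl⟩

end Pool.Agent.T6.H74.GC
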