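import Pool.Agent.T6.H74.GC.FF
import Pool.Agent.T6.H74.GC.Plf

/-!
# Resolution of non-affine varieties defined by products of linear forms
-/

set_option autoImplicit false
set_option linter.unusedVariables false

universe u

open AlgebraicGeometry CategoryTheory Pool.Agent.W558

namespace Pool.Agent.T6.H74.GC

/-- The function field of a variety is finitely generated. -/
lemma exists_generators {k K : Type u} [Field k] [Field K] [Algebra k K] {X : Scheme.{u}}
    (f : X ⟶ Spec (CommRingCat.of k)) [LocallyOfFiniteType f]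
    (b : Spec (CommRingCat.of K) ⟶ X)
    (hb : b ≫ f = Spec.map (CommRingCat.ofHom (algebraMap k K)))
    {B : Type u} [CommRing B] {β : B →+* K} {a : Spec (CommRingCat.of B) ⟶ X}
    (ha : IsAff b β a) :
    ∃ S0 : Finset K, IntermediateField.adjoin k (S0 : Set K) = ⊤ := by
  classical
  have := ha.oi
  have h1 : LocallyOfFiniteType (a ≫ f) := inferInstance
  let κ : CommRingCat.of k ⟶ CommRingCat.of B := Spec.preimage (a ≫ f)
  have hκ : Spec.map κ = a ≫ f := Spec.map_preimage _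
  rw [← hκ, HasRingHomProperty.Spec_iff (P := @LocallyOfFiniteType)] at h1
  have hβκ : κ ≫ CommRingCat.ofHom β = CommRingCat.ofHom (algebraMap k K) := by
    apply Spec.map_injective
    rw [Spec.map_comp, hκ, ← Category.assoc, ha.fac, hb]
  have h2 : ∀ x : k, β (κ.hom x) = algebraMap k K x := fun x =>
    congrArg (fun g => CommRingCat.Hom.hom g x) hβκ
  letI : Algebra k B := κ.hom.toAlgebra
  have h3 : Algebra.FiniteType k B := h1
  let β' : B →ₐ[k] K := { β with commutes' := h2 }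
  obtain ⟨S, hS⟩ := h3.out
  have h4 : ∀ x : B, β x ∈ IntermediateField.adjoin k ((S.image β : Finset K) : Set K) := by
    intro x
    have h6 : x ∈ Algebra.adjoin k (S : Set B) := by
      rw [hS]
      trivial
    have h7 : β' x ∈ (Algebra.adjoin k (S : Set B)).map β' := ⟨x, h6, rfl⟩
    rw [AlgHom.map_adjoin] at h7
    refine IntermediateField.algebra_adjoin_le_adjoin k _ (Algebra.adjoin_mono ?_ h7)
    rintro _ ⟨y, hy, rfl⟩
    exact Finset.mem_coe.2 (Finset.mem_image_of_mem _ (Finset.mem_coe.1 hy))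
  refine ⟨S.image β, ?_⟩
  rw [eq_top_iff]
  intro y _
  obtain ⟨u, v, -, rfl⟩ := ha.frac y
  exact div_mem (h4 u) (h4 v)

/-- Resolution of varieties which are locally integral over algebras generated by products of
linear forms. -/
theorem plf_global (p : ℕ) [Fact p.Prime] (k E K : Type u) [Field k] [PerfectField k] [CharP k p]
    [Field E] [Algebra k E] (hE : (Algebra.trdeg k E = 2 ∧ HasModel k E) ∨ HasLogModels k E)
    [Field K] [Algebra E K] [Algebra k K] [IsScalarTower k E K]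
    (n : ℕ) (V : Fin n → Submodule E K) [∀ s, FiniteDimensional E (V s)]
    (hgen : IntermediateField.adjoin E (⋃ s, (V s : Set K)) = ⊤)
    (r : ℕ) (ι : Fin r → Type) [∀ j, Fintype (ι j)] (i₀ : ∀ j, ι j)
    (c : ∀ j, ι j → E) (hc : ∀ j i, c j i ≠ 0) (d : ∀ j, ι j → Fin n → ℕ)
    (g : ∀ j i s, Fin (d j i s) → K) (hgV : ∀ j i s t, g j i s t ∈ V s)
    (hg0 : ∀ j i s t, g j i s t ≠ 0) (e : ∀ j, ι j → Fin r → ℕ) (f : Fin r → K)
    (he : ∀ j i l, e j i l ≠ 0 → l < j ∧ f l ≠ 0)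
    (hf : ∀ j, f j = ∑ i, algebraMap E K (c j i) * ((∏ s, ∏ t, g j i s t) * ∏ l, f l ^ e j i l))
    (deg : Fin r → Fin n → ZMod p)
    (hdeg : ∀ j, deg j = Pool.Agent.W418.LCI.dg deg (d j (i₀ j)) (e j (i₀ j)))
    (hind : LinearIndependent (ZMod p) fun q : (j : Fin r) × {i : ι j // i ≠ i₀ j} =>
      Pool.Agent.W418.LCI.dg deg (d q.1 q.2) (e q.1 q.2) - deg q.1)
    (htr : Algebra.trdeg E K + (Nat.card {j // f j = 0} : Cardinal.{u}) =
      ((∑ s, Module.finrank E (V s) : ℕ) : Cardinal.{u}))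
    (X : Scheme.{u}) (h : X ⟶ Spec (CommRingCat.of k)) [AlgebraicGeometry.IsIntegral X]
    [IsSeparated h] [LocallyOfFiniteType h] [QuasiCompact h]
    (φ : X.functionField ≃+* K) (hφ : IsLinear h φ)
    (hX : ∀ x : X, ∃ U : X.Opens, IsAffineOpen U ∧ x ∈ U ∧ ∃ S : Finset Kˣ,
      (∀ u ∈ S, u ∈ Subgroup.closure {x : Kˣ | (∃ b, algebraMap E K b = x) ∨
        (∃ s, (x : K) ∈ V s) ∨ ∃ l, f l = x}) ∧
      (∀ u ∈ S, (u : K) ∈ functionsOn φ U) ∧
      ∀ y ∈ functionsOn φ U, _root_.IsIntegral (Algebra.adjoin k (Units.val '' (S : Set Kˣ))) y) :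
    IsResolvableVariety h := by
  classical
  obtain ⟨x0⟩ : Nonempty X := inferInstance
  obtain ⟨U0, hU0, hx0, -⟩ := hX x0
  obtain ⟨β0, hβ0, -⟩ := isAff_of_isAffineOpen φ hU0 hx0
  have hfg := exists_generators h (gpt φ) (gpt_comp h φ hφ) hβ0
  refine global_of_models (fun y => ∃ x ∈ Subgroup.closure (plfSet V f), (x : K) = y)
    (fun G' hG' y hy => plf_models p k E K hE n V hgen r ι i₀ c hc d g hgV hg0 e f he hf deg
      hdeg hind htr hfg G' hG' y hy) h (gpt φ) (gpt_comp h φ hφ) fun x => ?_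
  obtain ⟨U, hU, hxU, S, hS1, hS2, hS3⟩ := hX x
  obtain ⟨β, hβ, hβU⟩ := isAff_of_isAffineOpen φ hU hxU
  refine ⟨Γ(X, U), inferInstance, β, hU.fromSpec, hβ, ?_, S.image Units.val, ?_, ?_⟩
  · rw [hU.range_fromSpec]
    exact hxU
  · intro y hy
    obtain ⟨u, hu, rfl⟩ := Finset.mem_image.1 hy
    refine ⟨u.ne_zero, ⟨u, hS1 u hu, rfl⟩, ?_⟩
    have h1 := hS2 u hu
    rw [← hβU] at h1
    exact h1
  · intro w
    rw [Finset.coe_image]
    apply hS3
    rw [← hβU]
    exact ⟨w, rfl⟩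

end Pool.Agent.T6.H74.GC
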