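import Pool.Agent.T6.H74.GC.Pt
import Pool.Agent.T6.H74.GC.Chart

/-!
# Graph closures
-/

set_option autoImplicit false

open HomogeneousLocalization AlgebraicGeometry CategoryTheory Limits

universe u

namespace Pool.Agent.T6.H74.GC

lemma closed_of_gen {C R₁ R₂ : Type u} [CommRing C] [CommRing R₁] [CommRing R₂] {T : Scheme.{u}}
    [IsAffine T] (p₁ : T ⟶ Spec (CommRingCat.of R₁)) (p₂ : T ⟶ Spec (CommRingCat.of R₂))
    (α : R₁ →+* C) (β : R₂ →+* C) (hgen : α.range ⊔ β.range = ⊤)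
    (m : Spec (CommRingCat.of C) ⟶ T) (h₁ : m ≫ p₁ = Spec.map (CommRingCat.ofHom α))
    (h₂ : m ≫ p₂ = Spec.map (CommRingCat.ofHom β)) : IsClosedImmersion m := by
  apply IsClosedImmersion.of_surjective_of_isAffine
  have key : ∀ {R : Type u} [CommRing R] (p : T ⟶ Spec (CommRingCat.of R)) (α : R →+* C),
      m ≫ p = Spec.map (CommRingCat.ofHom α) → ∀ r,
      ∃ t, m.appTop.hom t = (Scheme.ΓSpecIso (CommRingCat.of C)).inv.hom (α r) := by
    intro R _ p α h r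
    refine ⟨p.appTop.hom ((Scheme.ΓSpecIso (CommRingCat.of R)).inv.hom r), ?_⟩
    have h3 : p.appTop ≫ m.appTop = (Spec.map (CommRingCat.ofHom α)).appTop := by
      rw [← Scheme.Hom.comp_appTop, h]
    have h4 := Scheme.ΓSpecIso_inv_naturality (CommRingCat.ofHom α)
    have h5 : (Scheme.ΓSpecIso (CommRingCat.of R)).inv ≫ p.appTop ≫ m.appTop =
        CommRingCat.ofHom α ≫ (Scheme.ΓSpecIso (CommRingCat.of C)).inv := by
      rw [h3, h4]
    exact congrArg (fun f => CommRingCat.Hom.hom f r) h5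
  let R : Subring C := (m.appTop.hom.range).comap
    (Scheme.ΓSpecIso (CommRingCat.of C)).inv.hom
  have hR : R = ⊤ := by
    rw [eq_top_iff, ← hgen, sup_le_iff]
    constructor
    · rintro _ ⟨r, rfl⟩
      exact key p₁ α h₁ r
    · rintro _ ⟨r, rfl⟩
      exact key p₂ β h₂ r
  intro x
  obtain ⟨c, rfl⟩ := (ConcreteCategory.bijective_of_isIso
    (Scheme.ΓSpecIso (CommRingCat.of C)).inv).2 x
  have hc : c ∈ R := by rw [hR]; trivial
  exact hc

section

variable {A : Type u} [CommRing A] {σ : Type u} [SetLike σ A] [AddSubgroupClass σ A]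
  (𝒜 : ℕ → σ) [GradedRing 𝒜] {K : Type u} [Field K] (φ : A →+* K)
  {X : Scheme.{u}} (g : X ⟶ Spec (CommRingCat.of (𝒜 0))) (b : Spec (CommRingCat.of K) ⟶ X)
  (hb : b ≫ g = Spec.map (CommRingCat.ofHom (φ.comp (algebraMap (𝒜 0) A))))
  {f₀ : A} (hf₀ : φ f₀ ≠ 0) {d₀ : ℕ} (hd : f₀ ∈ 𝒜 d₀) (hd₀ : 0 < d₀)

/-- The `K`-valued point of the product. -/
noncomputable def gam : Spec (CommRingCat.of K) ⟶ pullback (Proj.toSpecZero 𝒜) g :=
  pullback.lift (pt 𝒜 φ hf₀ hd hd₀) b (by rw [pt_toSpecZero, hb])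

instance [QuasiCompact g] [QuasiSeparated g] [Algebra.FiniteType (𝒜 0) A] :
    QuasiCompact (gam 𝒜 φ g b hb hf₀ hd hd₀) := by
  have h1 : QuasiCompact (gam 𝒜 φ g b hb hf₀ hd hd₀ ≫
    (pullback.snd (Proj.toSpecZero 𝒜) g ≫ g)) := inferInstance
  exact QuasiCompact.of_comp _ (pullback.snd (Proj.toSpecZero 𝒜) g ≫ g)

/-- The coordinate ring of a chart of the graph closure. -/
noncomputable def chartRing {f : A} (hf : φ f ≠ 0) {B : Type u} [CommRing B] (β : B →+* K) :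
    Subring K := (ev 𝒜 φ f hf).range ⊔ β.range

/-- The fractions of degree zero in the chart. -/
noncomputable def toL {f : A} (hf : φ f ≠ 0) {B : Type u} [CommRing B] (β : B →+* K) :
    Away 𝒜 f →+* chartRing 𝒜 φ hf β :=
  (ev 𝒜 φ f hf).codRestrict _ fun x => (le_sup_left : _ ≤ chartRing 𝒜 φ hf β) ⟨x, rfl⟩

/-- The functions on the open subset in the chart. -/
noncomputable def toR {f : A} (hf : φ f ≠ 0) {B : Type u} [CommRing B] (β : B →+* K) :
    B →+* chartRing 𝒜 φ hf β :=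
  β.codRestrict _ fun x => (le_sup_right : _ ≤ chartRing 𝒜 φ hf β) ⟨x, rfl⟩

lemma toL_sup_toR {f : A} (hf : φ f ≠ 0) {B : Type u} [CommRing B] (β : B →+* K) :
    (toL 𝒜 φ hf β).range ⊔ (toR 𝒜 φ hf β).range = ⊤ := by
  rw [eq_top_iff]
  rintro ⟨x, hx⟩ -
  have h1 : chartRing 𝒜 φ hf β ≤
      ((toL 𝒜 φ hf β).range ⊔ (toR 𝒜 φ hf β).range).map (chartRing 𝒜 φ hf β).subtype := by
    unfold chartRing
    rw [sup_le_iff]
    constructor
    · rintro _ ⟨r, rfl⟩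
      exact ⟨toL 𝒜 φ hf β r, (le_sup_left : (toL 𝒜 φ hf β).range ≤ _) ⟨r, rfl⟩, rfl⟩
    · rintro _ ⟨r, rfl⟩
      exact ⟨toR 𝒜 φ hf β r, (le_sup_right : (toR 𝒜 φ hf β).range ≤ _) ⟨r, rfl⟩, rfl⟩
  obtain ⟨y, hy, hyx⟩ := h1 hx
  have h2 : y = ⟨x, hx⟩ := Subtype.ext hyx
  rw [← h2]
  exact hy

include hb in
/-- The charts of the graph closure. -/
theorem exists_graph_chart [QuasiCompact g] [IsSeparated g] [Algebra.FiniteType (𝒜 0) A]
    {f : A} (hf : φ f ≠ 0) {d : ℕ} (hfd : f ∈ 𝒜 d) (hd1 : 0 < d)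
    {B : Type u} [CommRing B] (β : B →+* K) (a : Spec (CommRingCat.of B) ⟶ X)
    [IsOpenImmersion a] (hβ : Spec.map (CommRingCat.ofHom β) ≫ a = b) :
    ∃ c : Spec (CommRingCat.of (chartRing 𝒜 φ hf β)) ⟶ (gam 𝒜 φ g b hb hf₀ hd hd₀).image,
      IsOpenImmersion c ∧
      c ≫ (gam 𝒜 φ g b hb hf₀ hd hd₀).imageι ≫ pullback.fst (Proj.toSpecZero 𝒜) g =
        Spec.map (CommRingCat.ofHom (toL 𝒜 φ hf β)) ≫ Proj.awayι 𝒜 f hfd hd1 ∧
      c ≫ (gam 𝒜 φ g b hb hf₀ hd hd₀).imageι ≫ pullback.snd (Proj.toSpecZero 𝒜) g =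
        Spec.map (CommRingCat.ofHom (toR 𝒜 φ hf β)) ≫ a ∧
      ∀ y : (gam 𝒜 φ g b hb hf₀ hd hd₀).image,
        pullback.fst (Proj.toSpecZero 𝒜) g ((gam 𝒜 φ g b hb hf₀ hd hd₀).imageι y) ∈
          Proj.basicOpen 𝒜 f →
        pullback.snd (Proj.toSpecZero 𝒜) g ((gam 𝒜 φ g b hb hf₀ hd hd₀).imageι y) ∈
          Set.range a → y ∈ Set.range c := by
  set γ := gam 𝒜 φ g b hb hf₀ hd hd₀ with hγ
  have hi : Function.Injective (chartRing 𝒜 φ hf β).subtype := Subtype.val_injective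
  have hu : IsDominant (Spec.map (CommRingCat.ofHom (chartRing 𝒜 φ hf β).subtype)) :=
    isDominant_spec _ hi
  set u := Spec.map (CommRingCat.ofHom (chartRing 𝒜 φ hf β).subtype) with hu'
  let l := Spec.map (CommRingCat.ofHom (toL 𝒜 φ hf β))
  let r := Spec.map (CommRingCat.ofHom (toR 𝒜 φ hf β))
  have hul : u ≫ l = Spec.map (CommRingCat.ofHom (ev 𝒜 φ f hf)) := by
    rw [← Spec.map_comp, ← CommRingCat.ofHom_comp]
    rfl
  have hur : u ≫ r = Spec.map (CommRingCat.ofHom β) := by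
    rw [← Spec.map_comp, ← CommRingCat.ofHom_comp]
    rfl
  have hcond : l ≫ Proj.awayι 𝒜 f hfd hd1 ≫ Proj.toSpecZero 𝒜 = r ≫ a ≫ g := by
    apply ext_of_isDominant u
    rw [← Category.assoc, hul, ← Category.assoc u r, hur, ← Category.assoc _ a g, hβ,
      ← Category.assoc, ← pt, pt_toSpecZero, hb]
  let V := pullback (Proj.awayι 𝒜 f hfd hd1 ≫ Proj.toSpecZero 𝒜) (a ≫ g)
  let m : Spec (CommRingCat.of (chartRing 𝒜 φ hf β)) ⟶ V := pullback.lift l r hcond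
  let i : V ⟶ pullback (Proj.toSpecZero 𝒜) g :=
    pullback.map _ _ _ _ (Proj.awayι 𝒜 f hfd hd1) a (𝟙 _) (by simp) (by simp)
  have hi : IsOpenImmersion i := by
    dsimp only [i]
    infer_instance
  have hV : IsAffine V := by
    dsimp only [V]
    infer_instance
  have hm : IsClosedImmersion m :=
    closed_of_gen (pullback.fst _ _) (pullback.snd _ _) (toL 𝒜 φ hf β) (toR 𝒜 φ hf β)
      (toL_sup_toR 𝒜 φ hf β) m (pullback.lift_fst _ _ _) (pullback.lift_snd _ _ _)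
  have huh : u ≫ m ≫ i = γ := by
    apply pullback.hom_ext
    · rw [hγ, gam, pullback.lift_fst, Category.assoc, Category.assoc, pullback.lift_fst,
        pullback.lift_fst_assoc, ← Category.assoc, hul, ← pt]
      exact pt_eq 𝒜 φ _ _ _ _ _ _
    · rw [hγ, gam, pullback.lift_snd, Category.assoc, Category.assoc, pullback.lift_snd,
        pullback.lift_snd_assoc, ← Category.assoc, hur, hβ]
  have hqc : QuasiCompact (m ≫ i) := by
    have h1 : QuasiCompact ((m ≫ i) ≫ (pullback.snd (Proj.toSpecZero 𝒜) g ≫ g)) := inferInstance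
    exact QuasiCompact.of_comp _ (pullback.snd (Proj.toSpecZero 𝒜) g ≫ g)
  obtain ⟨c, hc1, hc2, hc3⟩ := exists_chart γ u (m ≫ i) huh
  refine ⟨c, hc1, ?_, ?_, ?_⟩
  · rw [← Category.assoc, hc2, Category.assoc, pullback.lift_fst, pullback.lift_fst_assoc]
  · rw [← Category.assoc, hc2, Category.assoc, pullback.lift_snd, pullback.lift_snd_assoc]
  · intro y hy1 hy2
    refine mem_range_chart γ u m i huh c hc2 y ?_
    rw [Scheme.Pullback.range_map]
    refine ⟨?_, hy2⟩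
    rw [Set.mem_preimage]
    have h1 := Proj.opensRange_awayι 𝒜 f hfd hd1
    rw [← h1] at hy1
    exact hy1

end

end Pool.Agent.T6.H74.GC
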