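import Pool.Agent.T6.H74.GC.Res

/-!
# Resolutions as graph closures
-/

set_option autoImplicit false

open HomogeneousLocalization AlgebraicGeometry CategoryTheory Limits

universe u

namespace Pool.Agent.T6.H74.GC

lemma smooth_of_charts {Y S : Scheme.{u}} (p : Y ⟶ S)
    (h : ∀ y : Y, ∃ (Z : Scheme.{u}) (c : Z ⟶ Y), IsOpenImmersion c ∧ y ∈ Set.range c ∧
      Smooth (c ≫ p)) : Smooth p := by
  choose Z c hc hy hs using h
  have hsup : ⨆ y, (c y).opensRange = ⊤ := by
    rw [eq_top_iff]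
    intro y _
    rw [TopologicalSpace.Opens.mem_iSup]
    exact ⟨y, hy y⟩
  rw [IsZariskiLocalAtSource.iff_of_iSup_eq_top (P := @Smooth.{u})
    (fun y => (c y).opensRange) hsup]
  intro y
  rw [← MorphismProperty.cancel_left_of_respectsIso (P := @Smooth.{u})
    (c y).isoOpensRange.hom, ← Category.assoc, Scheme.Hom.isoOpensRange_hom_ι]
  exact hs y

section

attribute [local instance] MvPolynomial.gradedAlgebra

variable {k K : Type u} [Field k] [Field K] [Algebra k K] {ι : Type} [Finite ι] (z : ι → K)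
  {X : Scheme.{u}} (f : X ⟶ Spec (CommRingCat.of k)) (b : Spec (CommRingCat.of K) ⟶ X)
  (hb : b ≫ f = Spec.map (CommRingCat.ofHom (algebraMap k K)))

/-- The morphism to the spectrum of the constants. -/
noncomputable def gX (ι : Type) {k : Type u} [Field k] {X : Scheme.{u}}
    (f : X ⟶ Spec (CommRingCat.of k)) : X ⟶ Spec (CommRingCat.of (Fo k ι 0)) :=
  f ≫ Spec.map (CommRingCat.ofHom (cst (k := k) (ι := ι)))

instance [QuasiCompact f] : QuasiCompact (gX ι f) := by
  unfold gX
  infer_instance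

instance [IsSeparated f] : IsSeparated (gX ι f) := by
  unfold gX
  infer_instance

include hb in
omit [Finite ι] in
lemma hb' : b ≫ gX ι f = Spec.map (CommRingCat.ofHom
    ((evz z).comp (algebraMap (Fo k ι 0) (MvPolynomial ι k)))) := by
  rw [gX, ← Category.assoc, hb, ← Spec.map_comp, ← CommRingCat.ofHom_comp, evz_cst]

omit [Finite ι] in
lemma evz_ne {s : ι} (hs : z s ≠ 0) : evz (k := k) z (MvPolynomial.X s) ≠ 0 := by
  rwa [evz_X]

/-- The point of the product. -/
noncomputable abbrev gz {s : ι} (hs : z s ≠ 0) : Spec (CommRingCat.of K) ⟶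
    pullback (Proj.toSpecZero (Fo k ι)) (gX ι f) :=
  gam (Fo k ι) (evz z) (gX ι f) b (hb' z f b hb) (evz_ne z hs) (X_mem s) one_pos

/-- The graph closure. -/
noncomputable abbrev Yz {s : ι} (hs : z s ≠ 0) : Scheme.{u} := (gz z f b hb hs).image

/-- The projection. -/
noncomputable def piz {s : ι} (hs : z s ≠ 0) : Yz z f b hb hs ⟶ X :=
  (gz z f b hb hs).imageι ≫ pullback.snd (Proj.toSpecZero (Fo k ι)) (gX ι f)

instance [QuasiCompact f] [IsSeparated f] {s : ι} (hs : z s ≠ 0) :
    IsProper (piz z f b hb hs) := by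
  unfold piz
  infer_instance

instance [QuasiCompact f] [IsSeparated f] {s : ι} (hs : z s ≠ 0) :
    AlgebraicGeometry.IsIntegral (Yz z f b hb hs) :=
  isIntegral_image _

/-- The coordinate ring of the chart. -/
noncomputable abbrev Cz {t : ι} (ht : z t ≠ 0) {B : Type u} [CommRing B] (β : B →+* K) :
    Subring K := chartRing (Fo k ι) (evz z) (evz_ne z ht) β

omit [Finite ι] in
lemma Cz_eq {t : ι} (ht : z t ≠ 0) {B : Type u} [CommRing B] (β : B →+* K) :
    Cz (k := k) z ht β =
      (Algebra.adjoin k (Set.range fun i => z i / z t)).toSubring ⊔ β.range := by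
  rw [Cz, chartRing, range_ev]

variable [QuasiCompact f] [IsSeparated f]

/-- The charts of the graph closure. -/
theorem chartz {s : ι} (hs : z s ≠ 0) {t : ι} (ht : z t ≠ 0) {B : Type u} [CommRing B]
    (β : B →+* K) (a : Spec (CommRingCat.of B) ⟶ X) [IsOpenImmersion a]
    (hβ : Spec.map (CommRingCat.ofHom β) ≫ a = b) :
    ∃ c : Spec (CommRingCat.of (Cz (k := k) z ht β)) ⟶ Yz z f b hb hs,
      IsOpenImmersion c ∧
      c ≫ piz z f b hb hs =
        Spec.map (CommRingCat.ofHom (toR (Fo k ι) (evz z) (evz_ne z ht) β)) ≫ a ∧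
      (∀ (q : Spec (CommRingCat.of (Cz (k := k) z ht β))) (t' : ι) (y : Cz (k := k) z ht β),
        (y : K) = z t' / z t → y ∉ q.asIdeal →
        pullback.fst (Proj.toSpecZero (Fo k ι)) (gX ι f)
          ((gz z f b hb hs).imageι (c q)) ∈
          Proj.basicOpen (Fo k ι) (MvPolynomial.X t')) ∧
      ∀ y : Yz z f b hb hs,
        pullback.fst (Proj.toSpecZero (Fo k ι)) (gX ι f)
          ((gz z f b hb hs).imageι y) ∈
          Proj.basicOpen (Fo k ι) (MvPolynomial.X t) →
        piz z f b hb hs y ∈ Set.range a → y ∈ Set.range c := by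
  obtain ⟨c, hc1, hc2, hc3, hc4⟩ := exists_graph_chart (Fo k ι) (evz z) (gX ι f) b
    (hb' z f b hb) (evz_ne z hs) (X_mem s) one_pos (evz_ne z ht) (X_mem t) one_pos β a hβ
  refine ⟨c, hc1, hc3, ?_, ?_⟩
  · intro q t' y hy hq
    rw [← Scheme.Hom.comp_apply]
    refine mem_basicOpen (Fo k ι) ((gz z f b hb hs).imageι ≫
      pullback.fst (Proj.toSpecZero (Fo k ι)) (gX ι f)) c (X_mem t) one_pos (X_mem t') one_pos
      _ hc2 q ?_
    have h1 : toL (Fo k ι) (evz z) (evz_ne z ht) β
        (Away.isLocalizationElem (X_mem t) (X_mem t')) = y := by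
      apply Subtype.ext
      rw [hy]
      change ev (Fo k ι) (evz z) (MvPolynomial.X t) (evz_ne z ht)
        (Away.mk (Fo k ι) (X_mem t) 1 (MvPolynomial.X t' ^ 1) _) = _
      rw [ev_mk, map_pow, evz_X, evz_X, pow_one, pow_one]
    rw [h1]
    exact hq
  · intro y hy1 hy2
    exact hc4 y hy1 hy2

/-- Every point of the graph closure is contained in one of the charts. -/
theorem exists_chartz (hz : ∀ i, z i ≠ 0) {s : ι} (hs : z s ≠ 0) (T : Set ι)
    (hV : ∀ V : ValuationSubring K, (∀ c, algebraMap k K c ∈ V) →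
      ∃ t ∈ T, ∀ i, z i / z t ∈ V) {B : Type u} [CommRing B]
    (β : B →+* K) (a : Spec (CommRingCat.of B) ⟶ X) [IsOpenImmersion a]
    (hβ : Spec.map (CommRingCat.ofHom β) ≫ a = b) (y : Yz z f b hb hs)
    (hy : piz z f b hb hs y ∈ Set.range a) :
    ∃ t ∈ T, pullback.fst (Proj.toSpecZero (Fo k ι)) (gX ι f)
          ((gz z f b hb hs).imageι y) ∈
          Proj.basicOpen (Fo k ι) (MvPolynomial.X t) := by
  have h1 : pullback.fst (Proj.toSpecZero (Fo k ι)) (gX ι f)
      ((gz z f b hb hs).imageι y) ∈ (⊤ : (Proj (Fo k ι)).Opens) := trivial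
  rw [← iSup_X, TopologicalSpace.Opens.mem_iSup] at h1
  obtain ⟨r, hr⟩ := h1
  obtain ⟨c, hc1, hc2, hc3, hc4⟩ := chartz z f b hb hs (hz r) β a hβ
  obtain ⟨q, rfl⟩ := hc4 y hr hy
  obtain ⟨V, hV1, hV2⟩ := Ideal.image_subset_nonunits_valuationSubring
    (A := Cz (k := k) z (hz r) β) q.asIdeal q.isPrime.ne_top
  have hCz := Cz_eq (k := k) z (hz r) β
  have hk : ∀ x : k, algebraMap k K x ∈ V := by
    intro x
    apply hV1
    rw [hCz]
    exact (le_sup_left : (Algebra.adjoin k (Set.range fun i => z i / z r)).toSubring ≤ _)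
      (Subalgebra.algebraMap_mem _ x)
  obtain ⟨t, htT, ht⟩ := hV V hk
  refine ⟨t, htT, ?_⟩
  have hmem : z t / z r ∈ Cz (k := k) z (hz r) β := by
    rw [hCz]
    exact (le_sup_left : (Algebra.adjoin k (Set.range fun i => z i / z r)).toSubring ≤ _)
      (Algebra.subset_adjoin ⟨t, rfl⟩)
  refine hc3 q t ⟨_, hmem⟩ rfl ?_
  intro hq
  have h2 : z t / z r ∈ V.nonunits := hV2 ⟨⟨_, hmem⟩, hq, rfl⟩
  rw [ValuationSubring.mem_nonunits_iff_or] at h2
  rcases h2 with h2 | h2
  · exact div_ne_zero (hz t) (hz r) h2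
  · apply h2
    rw [inv_div]
    exact ht r

omit [Finite ι] [QuasiCompact f] [IsSeparated f] in
include hb in
/-- The smoothness of the charts. -/
theorem smooth_chart {t : ι} (ht : z t ≠ 0) {B : Type u} [CommRing B]
    (β : B →+* K) (a : Spec (CommRingCat.of B) ⟶ X)
    (hβ : Spec.map (CommRingCat.ofHom β) ≫ a = b) (C : Subalgebra k K)
    (hC : Algebra.Smooth k C) (hC' : C.toSubring = Cz (k := k) z ht β) :
    Smooth (Spec.map (CommRingCat.ofHom (toR (Fo k ι) (evz z) (evz_ne z ht) β)) ≫ a ≫ f) := by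
  let κ : CommRingCat.of k ⟶ CommRingCat.of B := Spec.preimage (a ≫ f)
  have hκ : Spec.map κ = a ≫ f := Spec.map_preimage _
  have hβκ : κ ≫ CommRingCat.ofHom β = CommRingCat.ofHom (algebraMap k K) := by
    apply Spec.map_injective
    rw [Spec.map_comp, hκ, ← Category.assoc, hβ, hb]
  have h1 : ∀ x : k, β (κ.hom x) = algebraMap k K x := fun x =>
    congrArg (fun g => CommRingCat.Hom.hom g x) hβκ
  let e : C →+* Cz (k := k) z ht β :=
    Subring.inclusion (S := C.toSubring) hC'.le
  have he : Function.Bijective e := by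
    constructor
    · exact Subring.inclusion_injective hC'.le
    · rintro ⟨x, hx⟩
      have hx' : x ∈ C.toSubring := by
        rw [hC']
        exact hx
      exact ⟨⟨x, hx'⟩, rfl⟩
  have h2 : (toR (Fo k ι) (evz z) (evz_ne z ht) β).comp κ.hom = e.comp (algebraMap k C) := by
    ext x
    exact h1 x
  rw [← hκ, ← Spec.map_comp, HasRingHomProperty.Spec_iff (P := @Smooth.{u})]
  change RingHom.Smooth ((toR (Fo k ι) (evz z) (evz_ne z ht) β).comp κ.hom)
  rw [h2]
  exact (RingHom.smooth_algebraMap.2 hC).comp (RingHom.Smooth.of_bijective he)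

/-- The graph closure is smooth. -/
theorem smooth_graph (hz : ∀ i, z i ≠ 0) {s : ι} (hs : z s ≠ 0) (T : Set ι)
    (hV : ∀ V : ValuationSubring K, (∀ c, algebraMap k K c ∈ V) →
      ∃ t ∈ T, ∀ i, z i / z t ∈ V)
    (hX : ∀ x : X, ∃ (B : Type u) (_ : CommRing B) (β : B →+* K)
      (a : Spec (CommRingCat.of B) ⟶ X), IsOpenImmersion a ∧
      Spec.map (CommRingCat.ofHom β) ≫ a = b ∧ x ∈ Set.range a ∧
      ∀ t ∈ T, ∃ C : Subalgebra k K, Algebra.Smooth k C ∧
        C.toSubring = (Algebra.adjoin k (Set.range fun i => z i / z t)).toSubring ⊔ β.range) :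
    Smooth (piz z f b hb hs ≫ f) := by
  apply smooth_of_charts
  intro y
  obtain ⟨B, _, β, a, ha, hβ, hxa, hC⟩ := hX (piz z f b hb hs y)
  obtain ⟨t, htT, ht⟩ := exists_chartz z f b hb hz hs T hV β a hβ y hxa
  obtain ⟨C, hC1, hC2⟩ := hC t htT
  obtain ⟨c, hc1, hc2, -, hc4⟩ := chartz z f b hb hs (hz t) β a hβ
  refine ⟨_, c, hc1, hc4 y ht hxa, ?_⟩
  rw [← Category.assoc, hc2, Category.assoc]
  exact smooth_chart z f b hb (hz t) β a hβ C hC1 (by rw [hC2, Cz_eq])

/-- The graph closure is birational to the variety. -/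
theorem birational_graph (hz : ∀ i, z i ≠ 0) {s : ι} (hs : z s ≠ 0) {B : Type u} [CommRing B]
    (β : B →+* K) (a : Spec (CommRingCat.of B) ⟶ X) [IsOpenImmersion a]
    (hβ : Spec.map (CommRingCat.ofHom β) ≫ a = b) (hinj : Function.Injective β)
    (hzs : ∀ i, z i / z s ∈ β.range) :
    IsIso (piz z f b hb hs ∣_ a.opensRange) := by
  obtain ⟨c, hc1, hc2, hc3, hc4⟩ := chartz z f b hb hs (hz s) β a hβ
  -- the chart is isomorphic to the open subset
  let κ : CommRingCat.of k ⟶ CommRingCat.of B := Spec.preimage (a ≫ f)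
  have hκ : Spec.map κ = a ≫ f := Spec.map_preimage _
  have hβκ : κ ≫ CommRingCat.ofHom β = CommRingCat.ofHom (algebraMap k K) := by
    apply Spec.map_injective
    rw [Spec.map_comp, hκ, ← Category.assoc, hβ, hb]
  have hk : ∀ x : k, algebraMap k K x ∈ β.range := fun x =>
    ⟨κ.hom x, congrArg (fun g => CommRingCat.Hom.hom g x) hβκ⟩
  have hadj : (Algebra.adjoin k (Set.range fun i => z i / z s)).toSubring ≤ β.range := by
    let R : Subalgebra k K := { β.range with algebraMap_mem' := hk }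
    have h1 : Algebra.adjoin k (Set.range fun i => z i / z s) ≤ R := by
      rw [Algebra.adjoin_le_iff]
      rintro _ ⟨i, rfl⟩
      exact hzs i
    exact h1
  have hCz : Cz (k := k) z (hz s) β = β.range := by
    rw [Cz_eq]
    exact sup_eq_right.2 hadj
  have hbij : Function.Bijective (toR (Fo k ι) (evz z) (evz_ne z (hz s)) β) := by
    constructor
    · intro x y hxy
      exact hinj (congrArg Subtype.val hxy)
    · rintro ⟨x, hx⟩
      obtain ⟨y, hy⟩ := (hCz.le hx : x ∈ β.range)
      exact ⟨y, Subtype.ext hy⟩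
  have hiso : IsIso (Spec.map (CommRingCat.ofHom (toR (Fo k ι) (evz z) (evz_ne z (hz s)) β))) := by
    have h1 : IsIso (CommRingCat.ofHom (toR (Fo k ι) (evz z) (evz_ne z (hz s)) β)) :=
      (ConcreteCategory.isIso_iff_bijective _).2 hbij
    infer_instance
  -- the range of the chart
  have hrange : c.opensRange = piz z f b hb hs ⁻¹ᵁ a.opensRange := by
    apply le_antisymm
    · rintro _ ⟨q, rfl⟩
      change piz z f b hb hs (c q) ∈ Set.range a
      rw [← Scheme.Hom.comp_apply, hc2, Scheme.Hom.comp_apply]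
      exact ⟨_, rfl⟩
    · intro y hy
      have hy' : piz z f b hb hs y ∈ Set.range a := hy
      apply hc4 y _ hy'
      have h1 : pullback.fst (Proj.toSpecZero (Fo k ι)) (gX ι f)
          ((gz z f b hb hs).imageι y) ∈ (⊤ : (Proj (Fo k ι)).Opens) := trivial
      rw [← iSup_X, TopologicalSpace.Opens.mem_iSup] at h1
      obtain ⟨r, hr⟩ := h1
      obtain ⟨c', hc1', hc2', hc3', hc4'⟩ := chartz z f b hb hs (hz r) β a hβ
      obtain ⟨q, rfl⟩ := hc4' y hr hy'
      have hCzr := Cz_eq (k := k) z (hz r) β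
      have hm1 : z s / z r ∈ Cz (k := k) z (hz r) β := by
        rw [hCzr]
        exact (le_sup_left : (Algebra.adjoin k (Set.range fun i => z i / z r)).toSubring ≤ _)
          (Algebra.subset_adjoin ⟨s, rfl⟩)
      have hm2 : z r / z s ∈ Cz (k := k) z (hz r) β := by
        rw [hCzr]
        exact (le_sup_right : β.range ≤ _) (hzs r)
      refine hc3' q s ⟨_, hm1⟩ rfl ?_
      intro hq
      have h2 : (⟨_, hm2⟩ * ⟨_, hm1⟩ : Cz (k := k) z (hz r) β) ∈ q.asIdeal :=
        Ideal.mul_mem_left _ _ hq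
      apply q.isPrime.ne_top
      rw [Ideal.eq_top_iff_one]
      convert h2 using 1
      apply Subtype.ext
      change (1 : K) = z r / z s * (z s / z r)
      have := hz r
      have := hz s
      field_simp
  have hr1 : Set.range c = Set.range (piz z f b hb hs ⁻¹ᵁ a.opensRange).ι := by
    rw [Scheme.Opens.range_ι, ← hrange]
    rfl
  have hr2 : Set.range a = Set.range a.opensRange.ι := by
    rw [Scheme.Opens.range_ι]
    rfl
  let e₁ := IsOpenImmersion.isoOfRangeEq c (piz z f b hb hs ⁻¹ᵁ a.opensRange).ι hr1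
  let e₂ := IsOpenImmersion.isoOfRangeEq a a.opensRange.ι hr2
  have hfac : e₁.hom ≫ (piz z f b hb hs ∣_ a.opensRange) =
      Spec.map (CommRingCat.ofHom (toR (Fo k ι) (evz z) (evz_ne z (hz s)) β)) ≫ e₂.hom := by
    rw [← cancel_mono a.opensRange.ι, Category.assoc, Category.assoc, morphismRestrict_ι,
      IsOpenImmersion.isoOfRangeEq_hom_fac, ← Category.assoc,
      IsOpenImmersion.isoOfRangeEq_hom_fac, hc2]
  have h3 : IsIso (e₁.hom ≫ (piz z f b hb hs ∣_ a.opensRange)) := by
    rw [hfac]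
    infer_instance
  exact IsIso.of_isIso_comp_left e₁.hom _

end

end Pool.Agent.T6.H74.GC
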