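import Mathlib

/-!
# Points of `Proj` with values in a field
-/

set_option autoImplicit false

open HomogeneousLocalization AlgebraicGeometry CategoryTheory

universe u

namespace Pool.Agent.T6.H74.GC

section gr

variable {A : Type u} [CommRing A] {σ : Type u} [SetLike σ A] [AddSubgroupClass σ A]
  (𝒜 : ℕ → σ) [GradedRing 𝒜] {K : Type u} [Field K] (φ : A →+* K)

/-- The value of a fraction of degree zero. -/
noncomputable def ev (f : A) (hf : φ f ≠ 0) : Away 𝒜 f →+* K :=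
  (IsLocalization.Away.lift (S := Localization.Away f) f (g := φ) hf.isUnit).comp
    (algebraMap (Away 𝒜 f) (Localization.Away f))

lemma ev_mk {f : A} (hf : φ f ≠ 0) {d : ℕ} (hfd : f ∈ 𝒜 d) (n : ℕ) (x : A)
    (hx : x ∈ 𝒜 (n • d)) : ev 𝒜 φ f hf (Away.mk 𝒜 hfd n x hx) = φ x / φ f ^ n := by
  rw [ev, RingHom.comp_apply, HomogeneousLocalization.algebraMap_apply, Away.val_mk,
    eq_div_iff (pow_ne_zero _ hf), ← map_pow, ← IsLocalization.Away.lift_eq (S := Localization.Away f)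
      f hf.isUnit (f ^ n), ← map_mul, ← IsLocalization.Away.lift_eq (S := Localization.Away f)
      f hf.isUnit x]
  congr 1
  rw [Localization.mk_eq_mk']
  exact IsLocalization.mk'_spec _ _ _

lemma ev_awayMap {f g x : A} (hf : φ f ≠ 0) (hx0 : φ x ≠ 0) {d e : ℕ} (hfd : f ∈ 𝒜 d)
    (hg : g ∈ 𝒜 e) (hx : x = f * g) (a : Away 𝒜 f) :
    ev 𝒜 φ x hx0 (awayMap 𝒜 hg hx a) = ev 𝒜 φ f hf a := by
  obtain ⟨n, a, ha, rfl⟩ := Away.mk_surjective 𝒜 hfd a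
  rw [awayMap_mk, ev_mk, ev_mk]
  subst hx
  rw [map_mul, map_mul, map_pow, mul_pow]
  have hg0 : φ g ≠ 0 := fun h => hx0 (by rw [map_mul, h, mul_zero])
  field_simp

lemma ev_fromZero {f : A} (hf : φ f ≠ 0) (a : 𝒜 0) :
    ev 𝒜 φ f hf (fromZeroRingHom 𝒜 _ a) = φ a := by
  rw [ev, RingHom.comp_apply, HomogeneousLocalization.algebraMap_apply]
  exact IsLocalization.Away.lift_eq (S := Localization.Away f) f hf.isUnit _

/-- The `K`-valued point. -/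
noncomputable def pt {f : A} (hf : φ f ≠ 0) {d : ℕ} (hfd : f ∈ 𝒜 d) (hd : 0 < d) :
    Spec (CommRingCat.of K) ⟶ Proj 𝒜 :=
  Spec.map (CommRingCat.ofHom (ev 𝒜 φ f hf)) ≫ Proj.awayι 𝒜 f hfd hd

lemma pt_mul {f g : A} (hf : φ f ≠ 0) (hg : φ g ≠ 0) {d e : ℕ} (hfd : f ∈ 𝒜 d) (hd : 0 < d)
    (hge : g ∈ 𝒜 e) : pt 𝒜 φ hf hfd hd =
      pt 𝒜 φ (f := f * g) (by rw [map_mul]; exact mul_ne_zero hf hg)
        (SetLike.mul_mem_graded hfd hge) (by omega) := by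
  rw [pt, pt, ← Proj.SpecMap_awayMap_awayι 𝒜 hfd hd hge rfl, ← Category.assoc, ← Spec.map_comp,
    ← CommRingCat.ofHom_comp]
  congr 3
  ext a
  rw [RingHom.comp_apply, ev_awayMap 𝒜 φ hf _ hfd hge rfl]

lemma pt_congr {f g : A} (hfg : f = g) (hf : φ f ≠ 0) (hg : φ g ≠ 0) {d e : ℕ} (hfd : f ∈ 𝒜 d)
    (hd : 0 < d) (hge : g ∈ 𝒜 e) (he : 0 < e) : pt 𝒜 φ hf hfd hd = pt 𝒜 φ hg hge he := by
  subst hfg
  have hde : d = e := DirectSum.degree_eq_of_mem_mem 𝒜 hfd hge (fun h => hf (by rw [h, map_zero]))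
  subst hde
  rfl

lemma pt_eq {f g : A} (hf : φ f ≠ 0) (hg : φ g ≠ 0) {d e : ℕ} (hfd : f ∈ 𝒜 d) (hd : 0 < d)
    (hge : g ∈ 𝒜 e) (he : 0 < e) : pt 𝒜 φ hf hfd hd = pt 𝒜 φ hg hge he := by
  rw [pt_mul 𝒜 φ hf hg hfd hd hge, pt_mul 𝒜 φ hg hf hge he hfd]
  exact pt_congr 𝒜 φ (mul_comm f g) _ _ _ _ _ _

lemma pt_toSpecZero {f : A} (hf : φ f ≠ 0) {d : ℕ} (hfd : f ∈ 𝒜 d) (hd : 0 < d) :
    pt 𝒜 φ hf hfd hd ≫ Proj.toSpecZero 𝒜 =
      Spec.map (CommRingCat.ofHom (φ.comp (algebraMap (𝒜 0) A))) := by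
  rw [pt, Category.assoc, Proj.awayι_toSpecZero, ← Spec.map_comp, ← CommRingCat.ofHom_comp]
  congr 2
  ext a
  exact ev_fromZero 𝒜 φ hf a

end gr

end Pool.Agent.T6.H74.GC
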