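import Pool.Agent.T6.H74.GC.Graph

/-!
# The graph closure in a projective space
-/

set_option autoImplicit false

open HomogeneousLocalization AlgebraicGeometry CategoryTheory Limits

universe u

namespace Pool.Agent.T6.H74.GC

/-- Points outside of the zero set of a form. -/
lemma mem_basicOpen {A : Type u} [CommRing A] {σ : Type u} [SetLike σ A] [AddSubgroupClass σ A]
    (𝒜 : ℕ → σ) [GradedRing 𝒜] {Y : Scheme.{u}} (p : Y ⟶ Proj 𝒜) {C : Type u} [CommRing C]
    (c : Spec (CommRingCat.of C) ⟶ Y) {f f' : A} {d d' : ℕ} (hf : f ∈ 𝒜 d) (hd : 0 < d)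
    (hf' : f' ∈ 𝒜 d') (hd' : 0 < d') (α : Away 𝒜 f →+* C)
    (hc : c ≫ p = Spec.map (CommRingCat.ofHom α) ≫ Proj.awayι 𝒜 f hf hd)
    (q : Spec (CommRingCat.of C)) (hq : α (Away.isLocalizationElem hf hf') ∉ q.asIdeal) :
    p (c q) ∈ Proj.basicOpen 𝒜 f' := by
  rw [← Scheme.Hom.comp_apply, hc, Scheme.Hom.comp_apply]
  change Spec.map (CommRingCat.ofHom α) q ∈ Proj.awayι 𝒜 f hf hd ⁻¹ᵁ Proj.basicOpen 𝒜 f'
  rw [Proj.awayι_preimage_basicOpen 𝒜 hf hd hf' hd']
  exact hq

section poly

attribute [local instance] MvPolynomial.gradedAlgebra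

variable {k K : Type u} [Field k] [Field K] [Algebra k K] {ι : Type} (z : ι → K)

/-- Forms. -/
abbrev Fo (k : Type u) [Field k] (ι : Type) : ℕ → Submodule k (MvPolynomial ι k) :=
  MvPolynomial.homogeneousSubmodule ι k

/-- The evaluation. -/
noncomputable abbrev evz : MvPolynomial ι k →+* K := (MvPolynomial.aeval z).toRingHom

lemma evz_X (i : ι) : evz (k := k) z (MvPolynomial.X i) = z i := MvPolynomial.aeval_X z i

lemma X_mem (i : ι) : (MvPolynomial.X i : MvPolynomial ι k) ∈ Fo k ι 1 :=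
  MvPolynomial.isHomogeneous_X k i

lemma adjoin_X : Algebra.adjoin (Fo k ι 0)
    (Set.range (MvPolynomial.X : ι → MvPolynomial ι k)) = ⊤ := by
  rw [eq_top_iff]
  intro p _
  induction p using MvPolynomial.induction_on with
  | C a =>
    exact Subalgebra.algebraMap_mem _ (⟨MvPolynomial.C a, MvPolynomial.isHomogeneous_C ι a⟩ :
      Fo k ι 0)
  | add p q hp hq => exact Subalgebra.add_mem _ (hp trivial) (hq trivial)
  | mul_X p i hp => exact Subalgebra.mul_mem _ (hp trivial) (Algebra.subset_adjoin ⟨i, rfl⟩)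

instance [Finite ι] : Algebra.FiniteType (Fo k ι 0) (MvPolynomial ι k) :=
  ⟨(Set.finite_range (MvPolynomial.X : ι → MvPolynomial ι k)).toFinset, by
    rw [Set.Finite.coe_toFinset]; exact adjoin_X⟩

lemma iSup_X : ⨆ i : ι, Proj.basicOpen (Fo k ι) (MvPolynomial.X i) = ⊤ :=
  Proj.iSup_basicOpen_eq_top' _ _ (fun i => ⟨1, X_mem i⟩) adjoin_X

set_option linter.unusedVariables false in
lemma aeval_div {p : MvPolynomial ι k} {n : ℕ} (hp : p ∈ Fo k ι n) {s : ι} (hs : z s ≠ 0) :
    MvPolynomial.aeval z p / z s ^ n = MvPolynomial.aeval (fun i => z i / z s) p := by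
  rw [MvPolynomial.aeval_def, MvPolynomial.aeval_def, MvPolynomial.eval₂_eq,
    MvPolynomial.eval₂_eq, Finset.sum_div]
  refine Finset.sum_congr rfl fun d hd => ?_
  rw [mul_div_assoc]
  congr 1
  have h1 : d.degree = n := by
    by_contra hne
    exact (MvPolynomial.mem_support_iff.1 hd)
      (MvPolynomial.IsHomogeneous.coeff_eq_zero (φ := p) hp hne)
  have h2 : z s ^ n = ∏ i ∈ d.support, z s ^ d i := by
    rw [Finset.prod_pow_eq_pow_sum, ← h1]
    rfl
  rw [h2, ← Finset.prod_div_distrib]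
  exact Finset.prod_congr rfl fun i _ => (div_pow _ _ _).symm

lemma range_ev (s : ι) (hs : evz (k := k) z (MvPolynomial.X s) ≠ 0) :
    (ev (Fo k ι) (evz z) (MvPolynomial.X s) hs).range =
      (Algebra.adjoin k (Set.range fun i => z i / z s)).toSubring := by
  have hs' : z s ≠ 0 := by rwa [evz_X] at hs
  apply le_antisymm
  · rintro _ ⟨x, rfl⟩
    obtain ⟨n, p, hp, rfl⟩ := Away.mk_surjective (Fo k ι) (X_mem s) x
    rw [ev_mk, evz_X]
    have hp' : p ∈ Fo k ι n := by rwa [smul_eq_mul, mul_one] at hp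
    change MvPolynomial.aeval z p / z s ^ n ∈ _
    rw [aeval_div z hp' hs', Algebra.adjoin_range_eq_range_aeval]
    exact ⟨p, rfl⟩
  · have h1 : ∀ (p : MvPolynomial ι k) (n : ℕ), p ∈ Fo k ι (n • 1) →
        MvPolynomial.aeval (fun i => z i / z s) p ∈
          (ev (Fo k ι) (evz z) (MvPolynomial.X s) hs).range := by
      intro p n hp
      refine ⟨Away.mk (Fo k ι) (X_mem s) n p hp, ?_⟩
      rw [ev_mk, evz_X]
      have hp' : p ∈ Fo k ι n := by rwa [smul_eq_mul, mul_one] at hp
      exact aeval_div z hp' hs'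
    intro x hx
    have hx' : x ∈ Algebra.adjoin k (Set.range fun i => z i / z s) := hx
    rw [Algebra.adjoin_range_eq_range_aeval] at hx'
    obtain ⟨p, rfl⟩ := hx'
    change MvPolynomial.aeval (fun i => z i / z s) p ∈ _
    rw [← MvPolynomial.sum_homogeneousComponent p, map_sum]
    refine Subring.sum_mem _ fun n _ => ?_
    refine h1 (MvPolynomial.homogeneousComponent n p) n ?_
    rw [smul_eq_mul, mul_one]
    exact MvPolynomial.homogeneousComponent_mem n p

/-- The constants. -/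
noncomputable def cst : Fo k ι 0 →+* k :=
  (MvPolynomial.constantCoeff).comp (algebraMap (Fo k ι 0) (MvPolynomial ι k))

lemma evz_cst : (algebraMap k K).comp (cst (k := k) (ι := ι)) =
    (evz z).comp (algebraMap (Fo k ι 0) (MvPolynomial ι k)) := by
  ext p
  have hp : (p : MvPolynomial ι k) =
      MvPolynomial.C (MvPolynomial.constantCoeff (p : MvPolynomial ι k)) := by
    have h1 : (p : MvPolynomial ι k).totalDegree = 0 :=
      (MvPolynomial.totalDegree_zero_iff_isHomogeneous ι).2 p.2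
    exact (MvPolynomial.totalDegree_eq_zero_iff_eq_C).1 h1
  change algebraMap k K (MvPolynomial.constantCoeff (p : MvPolynomial ι k)) =
    MvPolynomial.aeval z (p : MvPolynomial ι k)
  conv_rhs => rw [hp]
  rw [MvPolynomial.aeval_C]

end poly

end Pool.Agent.T6.H74.GC
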