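import Pool.Agent.T6.H74.GC.Main

/-!
# Resolutions as graph closures: conclusion
-/

set_option autoImplicit false

open HomogeneousLocalization AlgebraicGeometry CategoryTheory Limits

universe u

namespace Pool.Agent.T6.H74.GC

/-- An open subscheme of `X` with the coordinate ring `B`, a subring of `K`. -/
structure IsAff {K : Type u} [Field K] {X : Scheme.{u}} (b : Spec (CommRingCat.of K) ⟶ X)
    {B : Type u} [CommRing B] (β : B →+* K) (a : Spec (CommRingCat.of B) ⟶ X) : Prop where
  oi : IsOpenImmersion a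
  fac : Spec.map (CommRingCat.ofHom β) ≫ a = b
  inj : Function.Injective β
  frac : ∀ y : K, ∃ u v, β v ≠ 0 ∧ y = β u / β v

/-- Smaller open subsets. -/
lemma IsAff.shrink {K : Type u} [Field K] {X : Scheme.{u}} {b : Spec (CommRingCat.of K) ⟶ X}
    {B : Type u} [CommRing B] {β : B →+* K} {a : Spec (CommRingCat.of B) ⟶ X}
    (h : IsAff b β a) {ι : Type} [Finite ι] (w : ι → K) :
    ∃ (B' : Type u) (_ : CommRing B') (β' : B' →+* K) (a' : Spec (CommRingCat.of B') ⟶ X),
      IsAff b β' a' ∧ ∀ i, w i ∈ β'.range := by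
  classical
  have : Fintype ι := Fintype.ofFinite ι
  choose u v hv hw using fun i => h.frac (w i)
  let d : B := ∏ i, v i
  have hd : β d ≠ 0 := by
    rw [map_prod]
    exact Finset.prod_ne_zero_iff.2 fun i _ => hv i
  let β' : Localization.Away d →+* K :=
    IsLocalization.Away.lift (S := Localization.Away d) d (g := β) hd.isUnit
  have hβ' : ∀ x : B, β' (algebraMap B (Localization.Away d) x) = β x := fun x =>
    IsLocalization.Away.lift_eq (S := Localization.Away d) d hd.isUnit x
  let l : CommRingCat.of B ⟶ CommRingCat.of (Localization.Away d) :=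
    CommRingCat.ofHom (algebraMap B (Localization.Away d))
  have hl : IsOpenImmersion (Spec.map l) := IsOpenImmersion.of_isLocalization d
  have := h.oi
  refine ⟨Localization.Away d, inferInstance, β', Spec.map l ≫ a, ⟨inferInstance, ?_, ?_, ?_⟩, ?_⟩
  · rw [← Category.assoc, ← Spec.map_comp, ← CommRingCat.ofHom_comp]
    have h1 : β'.comp (algebraMap B (Localization.Away d)) = β := RingHom.ext hβ'
    rw [h1]
    exact h.fac
  · rw [injective_iff_map_eq_zero]
    intro x hx
    obtain ⟨n, y, hxy⟩ := IsLocalization.Away.surj d x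
    have h1 : β y = 0 := by
      rw [← hβ', ← hxy, map_mul, hx, zero_mul]
    have h2 : y = 0 := h.inj (by rw [h1, map_zero])
    rw [h2, map_zero, ← map_pow] at hxy
    have h3 : IsUnit (algebraMap B (Localization.Away d) (d ^ n)) :=
      IsLocalization.map_units (M := Submonoid.powers d) (Localization.Away d)
        ⟨d ^ n, n, rfl⟩
    exact (h3.mul_left_eq_zero).1 hxy
  · intro y
    obtain ⟨u, v, hv, hy⟩ := h.frac y
    exact ⟨algebraMap B _ u, algebraMap B _ v, by rwa [hβ'], by rw [hβ', hβ', hy]⟩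
  · intro i
    obtain ⟨e, he⟩ : v i ∣ d := Finset.dvd_prod_of_mem v (Finset.mem_univ i)
    have h1 : IsUnit (algebraMap B (Localization.Away d) d) :=
      IsLocalization.Away.algebraMap_isUnit d
    obtain ⟨t, ht⟩ := h1
    refine ⟨algebraMap B _ (u i * e) * ((t⁻¹ : (Localization.Away d)ˣ) : Localization.Away d), ?_⟩
    have h2 : β' ((t⁻¹ : (Localization.Away d)ˣ) : Localization.Away d) * β d = 1 := by
      rw [← hβ', ← ht, ← map_mul, Units.inv_mul, map_one]
    have h3 : β' ((t⁻¹ : (Localization.Away d)ˣ) : Localization.Away d) = (β d)⁻¹ :=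
      eq_inv_of_mul_eq_one_left h2
    rw [map_mul, hβ', h3, hw i, he, map_mul, map_mul]
    have h4 : β e ≠ 0 := by
      intro h0
      apply hd
      rw [he, map_mul, h0, mul_zero]
    have := hv i
    field_simp

section

variable {k K : Type u} [Field k] [Field K] [Algebra k K] {ι : Type} [Finite ι] (z : ι → K)
  {X : Scheme.{u}} (f : X ⟶ Spec (CommRingCat.of k)) (b : Spec (CommRingCat.of K) ⟶ X)
  (hb : b ≫ f = Spec.map (CommRingCat.ofHom (algebraMap k K))) [QuasiCompact f] [IsSeparated f]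
  [AlgebraicGeometry.IsIntegral X]

include hb in
/-- Resolution by a graph closure. -/
theorem resolution_of_coordinates (hz : ∀ i, z i ≠ 0) (T : Set ι)
    (hV : ∀ V : ValuationSubring K, (∀ c, algebraMap k K c ∈ V) →
      ∃ t ∈ T, ∀ i, z i / z t ∈ V)
    (hX : ∀ x : X, ∃ (B : Type u) (_ : CommRing B) (β : B →+* K)
      (a : Spec (CommRingCat.of B) ⟶ X), IsAff b β a ∧ x ∈ Set.range a ∧
      ∀ t ∈ T, ∃ C : Subalgebra k K, Algebra.Smooth k C ∧
        C.toSubring = (Algebra.adjoin k (Set.range fun i => z i / z t)).toSubring ⊔ β.range) :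
    ∃ (Y : Scheme.{u}) (π : Y ⟶ X), AlgebraicGeometry.IsIntegral Y ∧
      AlgebraicGeometry.IsProper π ∧ AlgebraicGeometry.Smooth (π ≫ f) ∧
      ∃ U : X.Opens, Dense (U : Set X) ∧ IsIso (π ∣_ U) := by
  obtain ⟨s, -, -⟩ := hV ⊤ (fun _ => trivial)
  have hs := hz s
  obtain ⟨x⟩ : Nonempty X := inferInstance
  obtain ⟨B, _, β, a, ha, -, -⟩ := hX x
  obtain ⟨B', _, β', a', ha', hw⟩ := ha.shrink (fun i => z i / z s)
  have := ha'.oi
  refine ⟨Yz z f b hb hs, piz z f b hb hs, inferInstance, inferInstance, ?_, a'.opensRange, ?_,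
    birational_graph z f b hb hz hs β' a' ha'.fac ha'.inj hw⟩
  · refine smooth_graph z f b hb hz hs T hV fun x => ?_
    obtain ⟨B, _, β, a, ha, hxa, hC⟩ := hX x
    exact ⟨B, inferInstance, β, a, ha.oi, ha.fac, hxa, hC⟩
  · refine a'.opensRange.isOpen.dense ⟨a' (Spec.map (CommRingCat.ofHom β') default), ?_⟩
    exact ⟨_, rfl⟩

end

end Pool.Agent.T6.H74.GC
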